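import Pool.Agent.Helper29.MX.Basic

/-!
# Ideals of the symplectic Lie algebra
-/

namespace Pool.Agent.Helper29.MX

open LinearMap Pool.Agent.Helper66.OTR

set_option linter.unusedSectionVars false

variable {K V : Type*} [Field K] [AddCommGroup V] [Module K V] [FiniteDimensional K V]

/-- infinitesimal isometries -/
def Skew (ψ : LinearMap.BilinForm K V) (X : Module.End K V) : Prop :=
  ∀ x y, ψ (X x) y = - ψ x (X y)

/-- a nonzero subspace of `sp` which is stable under brackets with `sp` is everything -/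
theorem sp_ideal [CharZero K] {ψ : LinearMap.BilinForm K V} {s : Submodule K (Module.End K V)}
    (S : Setup ψ s) {n : Submodule K (Module.End K V)}
    (hid : ∀ X, Skew ψ X → ∀ Z ∈ n, X * Z - Z * X ∈ n) {N : Module.End K V} (hN : N ∈ n)
    (hsk : Skew ψ N) (h0 : N ≠ 0) {X : Module.End K V} (hX : Skew ψ X) : X ∈ n := by
  have hdot : ∀ u w, Skew ψ (dot ψ u w) := fun u w => S.dot_sp u w
  have hsym : ∀ x y, ψ x (N y) = ψ y (N x) := by
    intro x y
    rw [S.neg, hsk, neg_neg]
  obtain ⟨x, hx⟩ : ∃ x, ψ x (N x) ≠ 0 := by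
    by_contra hcon
    push Not at hcon
    apply h0
    ext y
    rw [LinearMap.zero_apply]
    apply (LinearMap.BilinForm.nondegenerate_iff_ker_eq_bot.1 S.nd |> LinearMap.ker_eq_bot.1)
    ext z
    rw [map_zero, LinearMap.zero_apply, S.neg]
    have h1 := hcon (z + y)
    simp only [map_add, LinearMap.add_apply, hcon, hsym y z] at h1
    have h2 : (2 : K) * ψ z (N y) = 0 := by linear_combination h1
    have h3 : ψ z (N y) = 0 := by simpa using h2
    rw [h3, neg_zero]
  have hx0 : x ≠ 0 := by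
    rintro rfl
    simp at hx
  have e0 : dot ψ x x ∈ n := by
    have h1 := hid _ (hdot x x) _ hN
    have h2 := hid _ (hdot x x) _ h1
    have e : dot ψ x x * (dot ψ x x * N - N * dot ψ x x) -
        (dot ψ x x * N - N * dot ψ x x) * dot ψ x x = (-4 * ψ x (N x)) • dot ψ x x := by
      ext y
      simp only [LinearMap.sub_apply, Module.End.mul_apply, dot_apply, map_add, map_sub, map_smul,
        LinearMap.smul_apply, S.alt, hsym, smul_eq_mul]
      module
    rw [e] at h2
    have h3 := n.smul_mem (-4 * ψ x (N x))⁻¹ h2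
    rwa [smul_smul, inv_mul_cancel₀ (mul_ne_zero (by norm_num) hx), one_smul] at h3
  obtain ⟨z₀, hz₀⟩ : ∃ z, ψ z x ≠ 0 := ⟨N x, by rw [S.neg]; exact neg_ne_zero.2 hx⟩
  obtain ⟨z, hz⟩ : ∃ z, ψ z x = 1 := ⟨(ψ z₀ x)⁻¹ • z₀, by
    rw [map_smul, LinearMap.smul_apply, smul_eq_mul, inv_mul_cancel₀ hz₀]⟩
  have htr : ∀ y, ∃ X, Skew ψ X ∧ X x = y := by
    intro y
    refine ⟨dot ψ y z - (ψ y x / 2) • dot ψ z z, ?_, ?_⟩
    · intro v w
      rw [LinearMap.sub_apply, LinearMap.smul_apply, map_sub, map_smul, LinearMap.sub_apply,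
        LinearMap.smul_apply, hdot, hdot, LinearMap.sub_apply, LinearMap.smul_apply, map_sub,
        map_smul]
      simp only [smul_eq_mul]
      ring
    · simp only [LinearMap.sub_apply, LinearMap.smul_apply, dot_apply, hz]
      module
  have e1 : ∀ y, dot ψ y x ∈ n := by
    intro y
    obtain ⟨X, hX, rfl⟩ := htr y
    have h1 := hid X hX _ e0
    rw [comm_dot hX, dot_symm ψ x (X x), ← two_smul K] at h1
    have h2 := n.smul_mem (2 : K)⁻¹ h1
    rwa [smul_smul, inv_mul_cancel₀ two_ne_zero, one_smul] at h2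
  have e2 : ∀ y z, dot ψ y z ∈ n := by
    intro y z
    obtain ⟨X, hX, rfl⟩ := htr z
    have h1 := hid X hX _ (e1 y)
    rw [comm_dot hX] at h1
    have h2 := n.sub_mem h1 (e1 (X y))
    rwa [add_sub_cancel_left] at h2
  exact S.sp_le e2 hX

end Pool.Agent.Helper29.MX
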