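import Pool.Agent.Helper29.MX.Basic

/-!
# Ideals of irreducible linear Lie algebras which contain a plane of transvections
-/

namespace Pool.Agent.Helper29.MX

open LinearMap Pool.Agent.Helper66.OTR

set_option linter.unusedSectionVars false

variable {K V : Type*} [Field K] [AddCommGroup V] [Module K V] [FiniteDimensional K V]

/-- rank one operators -/
def rk (ρ : V →ₗ[K] K) (x : V) : Module.End K V := ρ.smulRight x

lemma rk_apply (ρ : V →ₗ[K] K) (x w : V) : rk ρ x w = ρ w • x := rfl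

lemma mul_rk (X : Module.End K V) (ρ : V →ₗ[K] K) (x : V) : X * rk ρ x = rk ρ (X x) := by
  ext w
  simp [rk_apply]

lemma rk_mul (X : Module.End K V) (ρ : V →ₗ[K] K) (x : V) : rk ρ x * X = rk (ρ ∘ₗ X) x := by
  ext w
  simp [rk_apply]

lemma rk_add (ρ : V →ₗ[K] K) (x y : V) : rk ρ (x + y) = rk ρ x + rk ρ y := by
  ext w
  simp [rk_apply]

lemma rk_sub (ρ : V →ₗ[K] K) (x y : V) : rk ρ (x - y) = rk ρ x - rk ρ y := by
  ext w
  simp [rk_apply, smul_sub]

lemma rk_smul (ρ : V →ₗ[K] K) (c : K) (x : V) : rk ρ (c • x) = c • rk ρ x := by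
  ext w
  simp only [rk_apply, LinearMap.smul_apply]
  rw [smul_comm]

lemma rk_add' (ρ σ : V →ₗ[K] K) (x : V) : rk (ρ + σ) x = rk ρ x + rk σ x := by
  ext w
  simp [rk_apply, add_smul]

lemma rk_sub' (ρ σ : V →ₗ[K] K) (x : V) : rk (ρ - σ) x = rk ρ x - rk σ x := by
  ext w
  simp [rk_apply, sub_smul]

lemma rk_neg' (ρ : V →ₗ[K] K) (x : V) : rk (-ρ) x = - rk ρ x := by
  ext w
  simp [rk_apply]

lemma rk_smul' (ρ : V →ₗ[K] K) (c : K) (x : V) : rk (c • ρ) x = c • rk ρ x := by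
  ext w
  simp [rk_apply, mul_smul]

lemma rk_zero (ρ : V →ₗ[K] K) : rk ρ (0 : V) = 0 := by
  ext w
  simp [rk_apply]

lemma trace_rk (ρ : V →ₗ[K] K) (x : V) : trace K V (rk ρ x) = ρ x := by
  unfold rk
  exact LinearMap.trace_smulRight ρ x

/-- every endomorphism is a sum of rank one operators -/
lemma eq_sum_rk (X : Module.End K V) : X = ∑ i, rk ((Module.finBasis K V).coord i)
    (X (Module.finBasis K V i)) := by
  ext w
  rw [LinearMap.sum_apply]
  simp only [rk_apply]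
  conv_lhs => rw [← (Module.finBasis K V).sum_repr w]
  rw [map_sum]
  simp

/-- An `sl2`-triple of rank one operators in the ideal `n`. -/
structure Frame (s n : Submodule K (Module.End K V)) (ξ η : V →ₗ[K] K) (u y : V) : Prop where
  hs : LieClosed s
  irr : Irred s
  le : n ≤ s
  ideal : ∀ X ∈ s, ∀ Z ∈ n, X * Z - Z * X ∈ n
  ξu : ξ u = 0
  ξy : ξ y = 1
  ηu : η u = 1
  ηy : η y = 0
  a : rk ξ u ∈ n
  f : rk η y ∈ n

namespace Frame

variable {s n : Submodule K (Module.End K V)} {ξ η : V →ₗ[K] K} {u y : V}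

/-- the middle projection -/
def Z (ξ η : V →ₗ[K] K) (u y : V) : Module.End K V := 1 - rk η u - rk ξ y

lemma Z_apply (x : V) : Z ξ η u y x = x - η x • u - ξ x • y := by
  simp [Z, rk_apply]

lemma ideal' (F : Frame s n ξ η u y) {X Z : Module.End K V} (hX : X ∈ s) (hZ : Z ∈ n) :
    Z * X - X * Z ∈ n := by
  have := n.neg_mem (F.ideal X hX Z hZ)
  rwa [neg_sub] at this

lemma comm_mem (F : Frame s n ξ η u y) {X Z : Module.End K V} (hX : X ∈ n) (hZ : Z ∈ n) :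
    X * Z - Z * X ∈ n := F.ideal X (F.le hX) Z hZ

/-- the semisimple element -/
def h (ξ η : V →ₗ[K] K) (u y : V) : Module.End K V := rk η u - rk ξ y

lemma h_mem (F : Frame s n ξ η u y) : h ξ η u y ∈ n := by
  have h1 := F.comm_mem F.a F.f
  rw [mul_rk, mul_rk, rk_apply, rk_apply, F.ξy, F.ηu, one_smul, one_smul] at h1
  exact h1

lemma h_sq (F : Frame s n ξ η u y) : h ξ η u y * h ξ η u y = rk η u + rk ξ y := by
  ext x
  simp [h, rk_apply, F.ξu, F.ξy, F.ηu, F.ηy]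

lemma h_cube (F : Frame s n ξ η u y) : h ξ η u y * h ξ η u y * h ξ η u y = h ξ η u y := by
  rw [F.h_sq]
  ext x
  simp [h, rk_apply, F.ξu, F.ξy, F.ηu, F.ηy, sub_eq_add_neg]

variable [CharZero K]

lemma pP_h (F : Frame s n ξ η u y) : pP (h ξ η u y) = rk η u := by
  unfold pP
  rw [F.h_sq]
  unfold h
  module

lemma pQ_h (F : Frame s n ξ η u y) : pQ (h ξ η u y) = rk ξ y := by
  unfold pQ
  rw [F.h_sq]
  unfold h
  module

omit [CharZero K] in
lemma pZ_h (F : Frame s n ξ η u y) : pZ (h ξ η u y) = Z ξ η u y := by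
  unfold pZ Z
  rw [F.h_sq, sub_add_eq_sub_sub]

/-- degree one components -/
lemma c1 (F : Frame s n ξ η u y) {X : Module.End K V} (hX : X ∈ s) :
    rk (η ∘ₗ X ∘ₗ Z ξ η u y) u + rk ξ (Z ξ η u y (X y)) ∈ n := by
  obtain ⟨-, m, -⟩ := comps F.hs (F.le F.h_mem) F.h_cube hX
  rw [F.pP_h, F.pQ_h, F.pZ_h] at m
  have e1 : rk η u * X * Z ξ η u y + Z ξ η u y * X * rk ξ y =
      rk (η ∘ₗ X ∘ₗ Z ξ η u y) u + rk ξ (Z ξ η u y (X y)) := by
    rw [rk_mul, rk_mul, mul_assoc, mul_rk, mul_rk]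
    rfl
  rw [e1] at m
  have h1 := F.ideal' m F.h_mem
  have e2 : h ξ η u y * (rk (η ∘ₗ X ∘ₗ Z ξ η u y) u + rk ξ (Z ξ η u y (X y))) -
      (rk (η ∘ₗ X ∘ₗ Z ξ η u y) u + rk ξ (Z ξ η u y (X y))) * h ξ η u y =
      rk (η ∘ₗ X ∘ₗ Z ξ η u y) u + rk ξ (Z ξ η u y (X y)) := by
    ext x
    simp [h, rk_apply, Z_apply, F.ξu, F.ξy, F.ηu, F.ηy]
  rwa [e2] at h1

/-- degree minus one components -/
lemma cm1 (F : Frame s n ξ η u y) {X : Module.End K V} (hX : X ∈ s) :
    rk η (Z ξ η u y (X u)) + rk (ξ ∘ₗ X ∘ₗ Z ξ η u y) y ∈ n := by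
  obtain ⟨-, -, -, m, -⟩ := comps F.hs (F.le F.h_mem) F.h_cube hX
  rw [F.pP_h, F.pQ_h, F.pZ_h] at m
  have e1 : Z ξ η u y * X * rk η u + rk ξ y * X * Z ξ η u y =
      rk η (Z ξ η u y (X u)) + rk (ξ ∘ₗ X ∘ₗ Z ξ η u y) y := by
    rw [rk_mul, rk_mul, mul_assoc, mul_rk, mul_rk]
    rfl
  rw [e1] at m
  have h1 := F.ideal _ m _ F.h_mem
  have e2 : (rk η (Z ξ η u y (X u)) + rk (ξ ∘ₗ X ∘ₗ Z ξ η u y) y) * h ξ η u y - h ξ η u y *
      (rk η (Z ξ η u y (X u)) + rk (ξ ∘ₗ X ∘ₗ Z ξ η u y) y) =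
      rk η (Z ξ η u y (X u)) + rk (ξ ∘ₗ X ∘ₗ Z ξ η u y) y := by
    ext x
    simp [h, rk_apply, Z_apply, F.ξu, F.ξy, F.ηu, F.ηy]
  rwa [e2] at h1

/-- the bracket of `a` with the components of degree minus one -/
lemma acm1 (F : Frame s n ξ η u y) {X : Module.End K V} (hX : X ∈ s) :
    rk (ξ ∘ₗ X ∘ₗ Z ξ η u y) u - rk ξ (Z ξ η u y (X u)) ∈ n := by
  have h1 := F.comm_mem F.a (F.cm1 hX)
  have e1 : rk ξ u * (rk η (Z ξ η u y (X u)) + rk (ξ ∘ₗ X ∘ₗ Z ξ η u y) y) -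
      (rk η (Z ξ η u y (X u)) + rk (ξ ∘ₗ X ∘ₗ Z ξ η u y) y) * rk ξ u =
      rk (ξ ∘ₗ X ∘ₗ Z ξ η u y) u - rk ξ (Z ξ η u y (X u)) := by
    ext x
    simp [rk_apply, Z_apply, F.ξu, F.ξy, F.ηu]
  rwa [e1] at h1

omit [CharZero K] in
lemma Z_u (F : Frame s n ξ η u y) : Z ξ η u y u = 0 := by
  simp [Z_apply, F.ξu, F.ηu]

omit [CharZero K] in
lemma Z_y (F : Frame s n ξ η u y) : Z ξ η u y y = 0 := by
  simp [Z_apply, F.ξy, F.ηy]

omit [CharZero K] in
lemma ξ_Z (F : Frame s n ξ η u y) (x : V) : ξ (Z ξ η u y x) = 0 := by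
  simp [Z_apply, F.ξu, F.ξy]

omit [CharZero K] in
lemma η_Z (F : Frame s n ξ η u y) (x : V) : η (Z ξ η u y x) = 0 := by
  simp [Z_apply, F.ηu, F.ηy]

omit [CharZero K] in
lemma Z_of {x : V} (h1 : ξ x = 0) (h2 : η x = 0) : Z ξ η u y x = x := by
  simp [Z_apply, h1, h2]

omit [CharZero K] in
lemma decomp (x : V) : x = η x • u + ξ x • y + Z ξ η u y x := by
  rw [Z_apply]
  abel

/-- the vectors `w` with `u ⊗ ρ + w ⊗ ξ ∈ n` for some `ρ` -/
def T (n : Submodule K (Module.End K V)) (ξ : V →ₗ[K] K) (u y : V) : Submodule K V where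
  carrier := {w | ∃ ρ : V →ₗ[K] K, ρ u = 0 ∧ ρ y = 0 ∧ rk ρ u + rk ξ w ∈ n}
  zero_mem' := ⟨0, rfl, rfl, by simp [rk, n.zero_mem]⟩
  add_mem' := by
    rintro w w' ⟨ρ, h1, h2, h3⟩ ⟨ρ', h1', h2', h3'⟩
    refine ⟨ρ + ρ', by simp [h1, h1'], by simp [h2, h2'], ?_⟩
    have := n.add_mem h3 h3'
    rw [rk_add, rk_add']
    convert this using 1
    abel
  smul_mem' := by
    rintro c w ⟨ρ, h1, h2, h3⟩
    refine ⟨c • ρ, by simp [h1], by simp [h2], ?_⟩
    have := n.smul_mem c h3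
    rwa [rk_smul, rk_smul', ← smul_add]

/-- every middle vector lies in `T` -/
lemma mem_T (F : Frame s n ξ η u y) (w : V) : Z ξ η u y w ∈ T n ξ u y := by
  have hu : ∀ X ∈ s, Z ξ η u y (X u) ∈ T n ξ u y := by
    intro X hX
    refine ⟨-(ξ ∘ₗ X ∘ₗ Z ξ η u y), by simp [F.Z_u], by simp [F.Z_y], ?_⟩
    have := n.neg_mem (F.acm1 hX)
    rw [rk_neg']
    convert this using 1
    abel
  have hy : ∀ X ∈ s, Z ξ η u y (X y) ∈ T n ξ u y := fun X hX =>
    ⟨η ∘ₗ X ∘ₗ Z ξ η u y, by simp [F.Z_u], by simp [F.Z_y], F.c1 hX⟩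
  have hw : ∀ X ∈ s, ∀ w ∈ T n ξ u y, ξ w = 0 → η w = 0 → Z ξ η u y (X w) ∈ T n ξ u y := by
    rintro X hX w ⟨ρ, h1, h2, h3⟩ hξ hη
    have h4 := F.ideal X hX _ h3
    have h5 : Z ξ η u y ((X * (rk ρ u + rk ξ w) - (rk ρ u + rk ξ w) * X) y) ∈ T n ξ u y :=
      ⟨_, by simp [F.Z_u], by simp [F.Z_y], F.c1 (F.le h4)⟩
    have h6 : Z ξ η u y ((X * (rk ρ u + rk ξ w) - (rk ρ u + rk ξ w) * X) y) =
        Z ξ η u y (X w) - ξ (X y) • w := by
      simp only [LinearMap.sub_apply, Module.End.mul_apply, LinearMap.add_apply, rk_apply, h2,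
        F.ξy, zero_smul, one_smul, zero_add, map_sub, map_add, map_smul, F.Z_u, smul_zero,
        Z_of hξ hη]
    rw [h6] at h5
    have h7 := (T n ξ u y).add_mem h5 ((T n ξ u y).smul_mem (ξ (X y)) ⟨ρ, h1, h2, h3⟩)
    rwa [sub_add_cancel] at h7
  have hR := F.irr.2 ((T n ξ u y).comap (Z ξ η u y)) (by
    intro X hX x hx
    rw [Submodule.mem_comap] at hx ⊢
    have h1 := decomp (ξ := ξ) (η := η) (u := u) (y := y) x
    have h2 : Z ξ η u y (X x) = η x • Z ξ η u y (X u) + ξ x • Z ξ η u y (X y) +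
        Z ξ η u y (X (Z ξ η u y x)) := by
      conv_lhs => rw [h1]
      simp only [map_add, map_smul]
    rw [h2]
    exact (T n ξ u y).add_mem ((T n ξ u y).add_mem ((T n ξ u y).smul_mem _ (hu X hX))
      ((T n ξ u y).smul_mem _ (hy X hX))) (hw X hX _ hx (F.ξ_Z x) (F.η_Z x)))
  have hne : (T n ξ u y).comap (Z ξ η u y) ≠ ⊥ := by
    intro hcon
    have h1 : u ∈ (T n ξ u y).comap (Z ξ η u y) := by
      rw [Submodule.mem_comap, F.Z_u]
      exact Submodule.zero_mem _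
    rw [hcon, Submodule.mem_bot] at h1
    have := F.ηu
    rw [h1, map_zero] at this
    exact zero_ne_one this
  have htop := hR.resolve_left hne
  have : w ∈ (T n ξ u y).comap (Z ξ η u y) := htop ▸ Submodule.mem_top
  exact this

/-- all `w ⊗ ξ` with `w` in the middle lie in `n` -/
lemma w_ξ (F : Frame s n ξ η u y) {θ : V →ₗ[K] K} (hθu : θ u = 0) (hθy : θ y = 0)
    (hθ0 : θ ≠ 0) (hθ : rk θ u ∈ n) {w : V} (h1 : ξ w = 0) (h2 : η w = 0) : rk ξ w ∈ n := by
  have key : ∀ w w₁ : V, ξ w = 0 → η w = 0 → ξ w₁ = 0 → η w₁ = 0 →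
      θ w₁ • rk ξ w + θ w • rk ξ w₁ ∈ n := by
    intro w w₁ hw1 hw2 hv1 hv2
    obtain ⟨ρ, r1, r2, r3⟩ := F.mem_T w
    rw [Z_of hw1 hw2] at r3
    obtain ⟨ρ₁, s1, s2, s3⟩ := F.mem_T w₁
    rw [Z_of hv1 hv2] at s3
    have hC : rk θ y ∈ n := by
      have := F.comm_mem F.f hθ
      have e : rk η y * rk θ u - rk θ u * rk η y = rk θ y := by
        ext x
        simp [rk_apply, F.ηu, hθy]
      rwa [e] at this
    have hZ : rk θ w - θ w • rk ξ y ∈ n := by
      have := F.comm_mem r3 hC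
      have e : (rk ρ u + rk ξ w) * rk θ y - rk θ y * (rk ρ u + rk ξ w) =
          rk θ w - θ w • rk ξ y := by
        ext x
        simp [rk_apply, r2, F.ξy, hθu, smul_smul, mul_comm]
      rwa [e] at this
    have hfin := F.comm_mem hZ s3
    have e : (rk θ w - θ w • rk ξ y) * (rk ρ₁ u + rk ξ w₁) -
        (rk ρ₁ u + rk ξ w₁) * (rk θ w - θ w • rk ξ y) =
        (θ w₁ • rk ξ w + θ w • rk ξ w₁) - ρ₁ w • rk θ u := by
      ext x
      simp only [LinearMap.sub_apply, LinearMap.add_apply, Module.End.mul_apply,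
        LinearMap.smul_apply, rk_apply, map_add, map_sub, map_smul, hθu, F.ξu, F.ξy,
        hv1, hw1, s2, zero_add, add_zero, zero_smul, smul_zero, sub_zero]
      module
    rw [e] at hfin
    have := n.add_mem hfin (n.smul_mem (ρ₁ w) hθ)
    rwa [sub_add_cancel] at this
  obtain ⟨x, hx⟩ : ∃ x, θ x ≠ 0 := by
    by_contra hcon
    push Not at hcon
    exact hθ0 (LinearMap.ext hcon)
  obtain ⟨w₁, hw₁⟩ : ∃ w₁, w₁ = Z ξ η u y x := ⟨_, rfl⟩
  have hθw : θ w₁ ≠ 0 := by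
    rw [hw₁, Z_apply]
    simpa [hθu, hθy] using hx
  have k1 : ξ w₁ = 0 := by rw [hw₁]; exact F.ξ_Z x
  have k2 : η w₁ = 0 := by rw [hw₁]; exact F.η_Z x
  have hw1 : rk ξ w₁ ∈ n := by
    have := key w₁ w₁ k1 k2 k1 k2
    rw [← add_smul] at this
    have h3 := n.smul_mem (θ w₁ + θ w₁)⁻¹ this
    rwa [smul_smul, inv_mul_cancel₀ (by
      rw [← two_mul]; exact mul_ne_zero two_ne_zero hθw), one_smul] at h3
  have := key w w₁ h1 h2 k1 k2
  have h3 := n.sub_mem this (n.smul_mem (θ w) hw1)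
  rw [add_sub_cancel_right] at h3
  have h4 := n.smul_mem (θ w₁)⁻¹ h3
  rwa [smul_smul, inv_mul_cancel₀ hθw, one_smul] at h4

/-- all `u ⊗ ρ` with `ρ` in the middle lie in `n` -/
lemma u_ρ (F : Frame s n ξ η u y) (hw : ∀ w, ξ w = 0 → η w = 0 → rk ξ w ∈ n)
    {σ : V →ₗ[K] K} (h1 : σ u = 0) (h2 : σ y = 0) : rk σ u ∈ n := by
  let P : Submodule K (V →ₗ[K] K) :=
    { carrier := {ρ | ρ u = 0 ∧ ρ y = 0 ∧ rk ρ u ∈ n}
      zero_mem' := ⟨rfl, rfl, by simp [rk, n.zero_mem]⟩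
      add_mem' := by
        rintro ρ ρ' ⟨a1, a2, a3⟩ ⟨b1, b2, b3⟩
        refine ⟨by simp [a1, b1], by simp [a2, b2], ?_⟩
        rw [rk_add']; exact n.add_mem a3 b3
      smul_mem' := by
        rintro c ρ ⟨a1, a2, a3⟩
        refine ⟨by simp [a1], by simp [a2], ?_⟩
        rw [rk_smul']; exact n.smul_mem c a3 }
  have hP1 : ∀ X ∈ s, η ∘ₗ X ∘ₗ Z ξ η u y ∈ P := by
    intro X hX
    refine ⟨by simp [F.Z_u], by simp [F.Z_y], ?_⟩
    have := n.sub_mem (F.c1 hX) (hw _ (F.ξ_Z (X y)) (F.η_Z (X y)))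
    rwa [add_sub_cancel_right] at this
  have hP2 : ∀ X ∈ s, ξ ∘ₗ X ∘ₗ Z ξ η u y ∈ P := by
    intro X hX
    refine ⟨by simp [F.Z_u], by simp [F.Z_y], ?_⟩
    have := n.add_mem (F.acm1 hX) (hw _ (F.ξ_Z (X u)) (F.η_Z (X u)))
    rwa [sub_add_cancel] at this
  let R : Submodule K V :=
    { carrier := {x | ξ x = 0 ∧ η x = 0 ∧ ∀ ρ ∈ P, ρ x = 0}
      zero_mem' := ⟨map_zero _, map_zero _, fun ρ _ => map_zero _⟩
      add_mem' := by
        rintro x x' ⟨a1, a2, a3⟩ ⟨b1, b2, b3⟩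
        refine ⟨by simp [a1, b1], by simp [a2, b2], fun ρ hρ => ?_⟩
        rw [map_add, a3 ρ hρ, b3 ρ hρ, add_zero]
      smul_mem' := by
        rintro c x ⟨a1, a2, a3⟩
        refine ⟨by simp [a1], by simp [a2], fun ρ hρ => ?_⟩
        rw [map_smul, a3 ρ hρ, smul_zero] }
  have hRbot : R = ⊥ := by
    have hst := F.irr.2 R (by
      rintro X hX x ⟨a1, a2, a3⟩
      have hZx : Z ξ η u y x = x := Z_of a1 a2
      have c1 : η (X x) = 0 := by
        have := a3 _ (hP1 X hX)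
        rwa [LinearMap.comp_apply, LinearMap.comp_apply, hZx] at this
      have c2 : ξ (X x) = 0 := by
        have := a3 _ (hP2 X hX)
        rwa [LinearMap.comp_apply, LinearMap.comp_apply, hZx] at this
      refine ⟨c2, c1, fun ρ hρ => ?_⟩
      have h3 := F.ideal X hX _ hρ.2.2
      have h4 := a3 _ (hP1 _ (F.le h3))
      rw [LinearMap.comp_apply, LinearMap.comp_apply, hZx] at h4
      simp only [LinearMap.sub_apply, Module.End.mul_apply, rk_apply, map_sub, map_smul,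
        smul_eq_mul, F.ηu, a3 ρ hρ, zero_mul, mul_one, zero_sub, neg_eq_zero] at h4
      exact h4)
    rcases hst with h | h
    · exact h
    · exfalso
      have h3 : u ∈ R := h ▸ Submodule.mem_top
      have := h3.2.1
      rw [F.ηu] at this
      exact one_ne_zero this
  obtain ⟨P', hP'⟩ : ∃ P' : Submodule K (Module.Dual K V), P' = P ⊔ Submodule.span K {ξ, η} :=
    ⟨_, rfl⟩
  have hco : P'.dualCoannihilator = ⊥ := by
    rw [eq_bot_iff, ← hRbot]
    intro x hx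
    rw [Submodule.mem_dualCoannihilator] at hx
    refine ⟨hx ξ ?_, hx η ?_, fun ρ hρ => hx ρ ?_⟩
    · rw [hP']; exact Submodule.mem_sup_right (Submodule.subset_span (by simp))
    · rw [hP']; exact Submodule.mem_sup_right (Submodule.subset_span (by simp))
    · rw [hP']; exact Submodule.mem_sup_left hρ
  have htop : P' = ⊤ := by
    have := Subspace.dualCoannihilator_dualAnnihilator_eq (W := P')
    rw [hco, Submodule.dualAnnihilator_bot] at this
    exact this.symm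
  have hσ : σ ∈ P' := htop ▸ Submodule.mem_top
  rw [hP'] at hσ
  obtain ⟨ρ, hρ, τ, hτ, rfl⟩ := Submodule.mem_sup.1 hσ
  obtain ⟨α, β, rfl⟩ := Submodule.mem_span_pair.1 hτ
  have e1 : β = 0 := by
    have := h1
    simp only [LinearMap.add_apply, LinearMap.smul_apply, hρ.1, F.ξu, F.ηu, smul_eq_mul, mul_zero,
      mul_one, zero_add] at this
    exact this
  have e2 : α = 0 := by
    have := h2
    simp only [LinearMap.add_apply, LinearMap.smul_apply, hρ.2.1, F.ξy, F.ηy, smul_eq_mul, mul_zero,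
      mul_one, zero_add, add_zero] at this
    exact this
  rw [e1, e2, zero_smul, zero_smul, add_zero, add_zero]
  exact hρ.2.2

/-- everything of trace zero lies in `n` -/
lemma all (F : Frame s n ξ η u y) (hw : ∀ w, ξ w = 0 → η w = 0 → rk ξ w ∈ n)
    {X : Module.End K V} (hX : trace K V X = 0) : X ∈ n := by
  have hρ : ∀ ρ : V →ₗ[K] K, ρ u = 0 → ρ y = 0 → rk ρ u ∈ n := fun ρ h1 h2 => F.u_ρ hw h1 h2
  have hηw : ∀ w, ξ w = 0 → η w = 0 → rk η w ∈ n := by
    intro w h1 h2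
    have := F.comm_mem (hw w h1 h2) F.f
    have e : rk ξ w * rk η y - rk η y * rk ξ w = rk η w := by
      ext x
      simp [rk_apply, F.ξy, h2]
    rwa [e] at this
  have hρy : ∀ ρ : V →ₗ[K] K, ρ u = 0 → ρ y = 0 → rk ρ y ∈ n := by
    intro ρ h1 h2
    have := F.comm_mem F.f (hρ ρ h1 h2)
    have e : rk η y * rk ρ u - rk ρ u * rk η y = rk ρ y := by
      ext x
      simp [rk_apply, F.ηu, h2]
    rwa [e] at this
  have hmid : ∀ (ρ : V →ₗ[K] K) (w : V), ρ u = 0 → ρ y = 0 → ξ w = 0 → η w = 0 →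
      rk ρ w - ρ w • rk η u ∈ n := by
    intro ρ w h1 h2 h3 h4
    have := F.comm_mem (hηw w h3 h4) (hρ ρ h1 h2)
    have e : rk η w * rk ρ u - rk ρ u * rk η w = rk ρ w - ρ w • rk η u := by
      ext x
      simp [rk_apply, F.ηu, smul_smul, mul_comm]
    rwa [e] at this
  have hgen : ∀ (ρ : V →ₗ[K] K) (x : V), rk ρ x - ρ x • rk η u ∈ n := by
    intro ρ x
    obtain ⟨w, hwd⟩ : ∃ w, w = Z ξ η u y x := ⟨_, rfl⟩
    obtain ⟨τ, hτ⟩ : ∃ τ : V →ₗ[K] K, τ = ρ ∘ₗ Z ξ η u y := ⟨_, rfl⟩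
    have w1 : ξ w = 0 := by rw [hwd]; exact F.ξ_Z x
    have w2 : η w = 0 := by rw [hwd]; exact F.η_Z x
    have t1 : τ u = 0 := by rw [hτ, LinearMap.comp_apply, F.Z_u, map_zero]
    have t2 : τ y = 0 := by rw [hτ, LinearMap.comp_apply, F.Z_y, map_zero]
    have hx : x = η x • u + ξ x • y + w := by rw [hwd]; exact decomp x
    have hρ' : ρ = ρ u • η + ρ y • ξ + τ := by
      ext v
      rw [hτ]
      simp only [LinearMap.add_apply, LinearMap.smul_apply, LinearMap.comp_apply, Z_apply, map_sub,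
        map_smul, smul_eq_mul]
      ring
    have hρx : ρ x = ρ u * η x + ρ y * ξ x + τ w := by
      have e1 := congrArg ρ hx
      have e2 : τ w = ρ w := by rw [hτ, LinearMap.comp_apply, Z_of w1 w2]
      rw [e1, e2]
      simp only [map_add, map_smul, smul_eq_mul]
      ring
    have e : rk ρ x - ρ x • rk η u =
        (ρ u * ξ x) • rk η y + ρ u • rk η w + (ρ y * η x) • rk ξ u -
        (ρ y * ξ x) • (rk η u - rk ξ y) + ρ y • rk ξ w + η x • rk τ u + ξ x • rk τ y +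
        (rk τ w - τ w • rk η u) := by
      have e1 : rk ρ x = rk (ρ u • η + ρ y • ξ + τ) (η x • u + ξ x • y + w) := by
        rw [← hρ', ← hx]
      rw [hρx, e1]
      simp only [rk_add, rk_add', rk_smul, rk_smul']
      module
    rw [e]
    refine n.add_mem (n.add_mem (n.add_mem (n.add_mem (n.sub_mem (n.add_mem (n.add_mem
      (n.smul_mem _ F.f) (n.smul_mem _ (hηw w w1 w2))) (n.smul_mem _ F.a)) (n.smul_mem _ F.h_mem))
      (n.smul_mem _ (hw w w1 w2))) (n.smul_mem _ (hρ τ t1 t2))) (n.smul_mem _ (hρy τ t1 t2)))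
      (hmid τ w t1 t2 w1 w2)
  have hs := eq_sum_rk X
  have htr : ∑ i, (Module.finBasis K V).coord i (X (Module.finBasis K V i)) = 0 := by
    rw [← hX]
    conv_rhs => rw [hs]
    rw [map_sum]
    exact Finset.sum_congr rfl fun i _ => (trace_rk _ _).symm
  have e : X = ∑ i, (rk ((Module.finBasis K V).coord i) (X (Module.finBasis K V i)) -
      (Module.finBasis K V).coord i (X (Module.finBasis K V i)) • rk η u) := by
    rw [Finset.sum_sub_distrib, ← Finset.sum_smul, htr, zero_smul, sub_zero]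
    exact hs
  rw [e]
  exact n.sum_mem fun i _ => hgen _ _

end Frame

/-- traceless elements up to scalars -/
def tz (s : Submodule K (Module.End K V)) : Submodule K (Module.End K V) where
  carrier := {X | trace K V X = 0 ∧ ∃ t : K, X + t • 1 ∈ s}
  zero_mem' := ⟨by simp, 0, by simp⟩
  add_mem' := by
    rintro a b ⟨ha, t, ht⟩ ⟨hb, u, hu⟩
    refine ⟨by rw [map_add, ha, hb, add_zero], t + u, ?_⟩
    have := s.add_mem ht hu
    convert this using 1
    module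
  smul_mem' := by
    rintro c a ⟨ha, t, ht⟩
    refine ⟨by rw [map_smul, ha, smul_zero], c * t, ?_⟩
    have := s.smul_mem c ht
    convert this using 1
    module

lemma tz_closed {s : Submodule K (Module.End K V)} (hs : LieClosed s) : LieClosed (tz s) := by
  rintro X ⟨hX, t, ht⟩ Y ⟨hY, u, hu⟩
  refine ⟨by rw [map_sub, trace_mul_comm, sub_self], 0, ?_⟩
  have := hs _ ht _ hu
  have e : (X + t • 1) * (Y + u • 1) - (Y + u • 1) * (X + t • 1) = X * Y - Y * X := by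
    simp only [add_mul, mul_add, smul_mul_assoc, mul_smul_comm, one_mul, mul_one]
    module
  rw [e] at this
  rwa [zero_smul, add_zero]

lemma tz_irred [CharZero K] {s : Submodule K (Module.End K V)} (hirr : Irred s) :
    Irred (tz s) := by
  have hnt := hirr.1
  refine ⟨hnt, fun W hW => hirr.2 W fun X hX w hw => ?_⟩
  have hd : (Module.finrank K V : K) ≠ 0 := by
    have := Module.finrank_pos (R := K) (M := V)
    exact_mod_cast this.ne'
  obtain ⟨t, ht⟩ : ∃ t : K, t = trace K V X / Module.finrank K V := ⟨_, rfl⟩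
  have h1 : X - t • 1 ∈ tz s := by
    refine ⟨?_, t, by rw [sub_add_cancel]; exact hX⟩
    rw [map_sub, map_smul, trace_one, ht, smul_eq_mul, div_mul_cancel₀ _ hd, sub_self]
  have h2 := W.add_mem (hW _ h1 w hw) (W.smul_mem t hw)
  simpa using h2

/-- **Transvections.** An ideal of an irreducible Lie algebra of endomorphisms which contains two
independent transvections with the same direction contains all endomorphisms of trace zero. -/
theorem tr2 [CharZero K] [IsAlgClosed K] {s n : Submodule K (Module.End K V)} (hs : LieClosed s)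
    (hirr : Irred s) (hle : n ≤ s) (hid : ∀ X ∈ s, ∀ Z ∈ n, X * Z - Z * X ∈ n) {u : V}
    {ξ θ : V →ₗ[K] K} (hξu : ξ u = 0) (hθu : θ u = 0) (ha : rk ξ u ∈ n) (hb : rk θ u ∈ n)
    (hu : u ≠ 0) (hξ : ξ ≠ 0) (hind : ∀ t : K, θ ≠ t • ξ) {X : Module.End K V}
    (hX : trace K V X = 0) : X ∈ n := by
  have hid' : ∀ X ∈ s, ∀ Z ∈ n, Z * X - X * Z ∈ n := by
    intro X hX Z hZ
    have := n.neg_mem (hid X hX Z hZ)
    rwa [neg_sub] at this
  -- an element with `ξ (X u) ≠ 0`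
  obtain ⟨X₀, hX₀, hne⟩ : ∃ X₀ ∈ tz s, ξ (X₀ u) ≠ 0 := by
    by_contra hcon
    push Not at hcon
    have h1 : rk ξ u = 0 := by
      refine trace_nondeg (tz_closed hs) (tz_irred hirr) (fun X hX => hX.1) (M := rk ξ u)
        ⟨by rw [trace_rk, hξu], 0, by rw [zero_smul, add_zero]; exact hle ha⟩ (fun X hX => ?_)
      rw [rk_mul, trace_rk]
      exact hcon X hX
    obtain ⟨x, hx⟩ : ∃ x, ξ x ≠ 0 := by
      by_contra h
      push Not at h
      exact hξ (LinearMap.ext h)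
    have h2 := congrArg (fun f => f x) h1
    simp only [rk_apply, LinearMap.zero_apply] at h2
    rcases smul_eq_zero.1 h2 with h3 | h3
    · exact hx h3
    · exact hu h3
  obtain ⟨X₁, hX₁⟩ : ∃ X₁, X₁ = (ξ (X₀ u))⁻¹ • X₀ := ⟨_, rfl⟩
  have hξX : ξ (X₁ u) = 1 := by
    rw [hX₁, LinearMap.smul_apply, map_smul, smul_eq_mul, inv_mul_cancel₀ hne]
  obtain ⟨-, κ, hκ⟩ : X₁ ∈ tz s := by rw [hX₁]; exact (tz s).smul_mem _ hX₀
  obtain ⟨m, hm⟩ : ∃ m : K, m = ξ (X₁ (X₁ u)) := ⟨_, rfl⟩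
  obtain ⟨y, hy⟩ : ∃ y, y = X₁ u - (m / 2) • u := ⟨_, rfl⟩
  obtain ⟨η, hη⟩ : ∃ η : V →ₗ[K] K, η = ξ ∘ₗ X₁ - (m / 2) • ξ := ⟨_, rfl⟩
  have hξy : ξ y = 1 := by rw [hy, map_sub, map_smul, hξu, hξX]; simp
  have hηu : η u = 1 := by
    rw [hη, LinearMap.sub_apply, LinearMap.smul_apply, LinearMap.comp_apply, hξX, hξu]; simp
  have hηy : η y = 0 := by
    rw [hη, hy, LinearMap.sub_apply, LinearMap.smul_apply, LinearMap.comp_apply]
    simp only [map_sub, map_smul, hξX, hξu, ← hm, smul_eq_mul]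
    ring
  obtain ⟨h, hh⟩ : ∃ h, h = rk η u - rk ξ y := ⟨_, rfl⟩
  have hhn : h ∈ n := by
    have h1 := hid' _ hκ _ ha
    have e : rk ξ u * (X₁ + κ • 1) - (X₁ + κ • 1) * rk ξ u = h := by
      rw [hh, hη, hy]
      ext x
      simp only [LinearMap.sub_apply, LinearMap.add_apply, Module.End.mul_apply,
        LinearMap.smul_apply, rk_apply, LinearMap.comp_apply, map_add, map_sub, map_smul,
        Module.End.one_apply, smul_eq_mul]
      module
    rwa [e] at h1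
  have hsq : h * h = rk η u + rk ξ y := by
    rw [hh]
    ext x
    simp [rk_apply, hξu, hξy, hηu, hηy]
  have hcube : h * h * h = h := by
    rw [hsq, hh]
    ext x
    simp [rk_apply, hξu, hξy, hηu, hηy, sub_eq_add_neg]
  have hP : pP h = rk η u := by
    unfold pP
    rw [hsq, hh]
    module
  have hQ : pQ h = rk ξ y := by
    unfold pQ
    rw [hsq, hh]
    module
  have hf : rk η y ∈ n := by
    obtain ⟨-, -, -, -, m5⟩ := comps hs (hle hhn) hcube hκ
    have e : pQ h * (X₁ + κ • 1) * pP h = rk η y := by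
      rw [hP, hQ]
      ext x
      simp [rk_apply, hξX, hξu]
    rw [e] at m5
    have h1 := hid _ m5 _ hhn
    have e2 : rk η y * h - h * rk η y = (2 : K) • rk η y := by
      rw [hh]
      ext x
      simp only [LinearMap.sub_apply, Module.End.mul_apply, LinearMap.smul_apply, rk_apply, map_sub,
        map_smul, hξy, hηu, hηy, smul_eq_mul]
      module
    rw [e2] at h1
    have h2 := n.smul_mem (2 : K)⁻¹ h1
    rwa [smul_smul, inv_mul_cancel₀ two_ne_zero, one_smul] at h2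
  have F : Frame s n ξ η u y := ⟨hs, hirr, hle, hid, hξu, hξy, hηu, hηy, ha, hf⟩
  refine F.all (fun w h1 h2 => ?_) hX
  refine F.w_ξ (θ := θ - θ y • ξ) ?_ ?_ ?_ ?_ h1 h2
  · simp [hθu, hξu]
  · simp [hξy]
  · intro hcon
    exact hind (θ y) (sub_eq_zero.1 hcon)
  · rw [rk_sub', rk_smul']
    exact n.sub_mem hb (n.smul_mem _ ha)

end Pool.Agent.Helper29.MX
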