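import Pool.Agent.Helper66.OTR.Gsp

/-!
# Homogeneous components for an element `D` with `D ^ 3 = D`
-/

namespace Pool.Agent.Helper29.MX

open LinearMap Pool.Agent.Helper66.OTR

set_option linter.unusedSectionVars false

variable {K V : Type*} [Field K] [AddCommGroup V] [Module K V]

/-- projection to the eigenvalue `1` -/
def pP (D : Module.End K V) : Module.End K V := (2 : K)⁻¹ • (D * D + D)

/-- projection to the eigenvalue `-1` -/
def pQ (D : Module.End K V) : Module.End K V := (2 : K)⁻¹ • (D * D - D)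

/-- projection to the eigenvalue `0` -/
def pZ (D : Module.End K V) : Module.End K V := 1 - D * D

/-- `D X - X D = k X` -/
def Hg (D : Module.End K V) (k : K) (X : Module.End K V) : Prop := D * X - X * D = k • X

section

variable {D : Module.End K V} (hD : D * D * D = D)

include hD

lemma D_pP : D * pP D = pP D := by
  unfold pP
  rw [mul_smul_comm, mul_add, ← mul_assoc, hD, add_comm]

lemma pP_D : pP D * D = pP D := by
  unfold pP
  rw [smul_mul_assoc, add_mul, hD, add_comm]

lemma D_pQ : D * pQ D = - pQ D := by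
  unfold pQ
  rw [mul_smul_comm, mul_sub, ← mul_assoc, hD, ← smul_neg, neg_sub]

lemma pQ_D : pQ D * D = - pQ D := by
  unfold pQ
  rw [smul_mul_assoc, sub_mul, hD, ← smul_neg, neg_sub]

lemma D_pZ : D * pZ D = 0 := by
  unfold pZ
  rw [mul_sub, mul_one, ← mul_assoc, hD, sub_self]

lemma pZ_D : pZ D * D = 0 := by
  unfold pZ
  rw [sub_mul, one_mul, hD, sub_self]

end

lemma p_sum [CharZero K] (D : Module.End K V) : pP D + pZ D + pQ D = 1 := by
  unfold pP pZ pQ
  module

lemma p_eq [CharZero K] {D : Module.End K V} : pP D - pQ D = D := by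
  unfold pP pQ
  module

lemma Hg.congr {D X : Module.End K V} {k l : K} (h : Hg D k X) (hkl : k = l) : Hg D l X := hkl ▸ h

lemma Hg.add {D X Y : Module.End K V} {k : K} (h : Hg D k X) (h' : Hg D k Y) :
    Hg D k (X + Y) := by
  unfold Hg at *
  rw [mul_add, add_mul, smul_add, ← h, ← h']
  abel

lemma Hg.smul {D X : Module.End K V} {k : K} (c : K) (h : Hg D k X) : Hg D k (c • X) := by
  unfold Hg at *
  rw [mul_smul_comm, smul_mul_assoc, ← smul_sub, h, smul_comm]

lemma Hg.mul {D X Y : Module.End K V} {k l : K} (h : Hg D k X) (h' : Hg D l Y) :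
    Hg D (k + l) (X * Y) := by
  unfold Hg at *
  have : D * (X * Y) - X * Y * D = (D * X - X * D) * Y + X * (D * Y - Y * D) := by noncomm_ring
  rw [this, h, h', smul_mul_assoc, mul_smul_comm, ← add_smul]

lemma Hg.sub {D X Y : Module.End K V} {k : K} (h : Hg D k X) (h' : Hg D k Y) :
    Hg D k (X - Y) := by
  unfold Hg at *
  rw [mul_sub, sub_mul, smul_sub, ← h, ← h']
  abel

lemma Hg.comm {D X Y : Module.End K V} {k l : K} (h : Hg D k X) (h' : Hg D l Y) :
    Hg D (k + l) (X * Y - Y * X) :=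
  (h.mul h').sub ((h'.mul h).congr (add_comm _ _))

/-- action on eigenvectors -/
lemma Hg.apply {D X : Module.End K V} {k a : K} (h : Hg D k X) {x : V} (hx : D x = a • x) :
    D (X x) = (k + a) • X x := by
  have h1 := congrArg (fun f => f x) h
  simp only [LinearMap.sub_apply, Module.End.mul_apply, LinearMap.smul_apply, hx, map_smul] at h1
  rw [sub_eq_iff_eq_add] at h1
  rw [h1, add_smul]

/-- eigenvalues of `D` -/
lemma eig {D : Module.End K V} (hD : D * D * D = D) {a : K} {x : V} (hx : D x = a • x)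
    (hx0 : x ≠ 0) : a = 0 ∨ a = 1 ∨ a = -1 := by
  have h1 : D (D (D x)) = D x := by
    have := congrArg (fun f => f x) hD
    simpa using this
  simp only [hx, map_smul, smul_smul] at h1
  rw [← sub_eq_zero, ← sub_smul] at h1
  rcases smul_eq_zero.1 h1 with h2 | h2
  · have h3 : a * ((a - 1) * (a + 1)) = 0 := by linear_combination h2
    rcases mul_eq_zero.1 h3 with h4 | h4
    · exact Or.inl h4
    · rcases mul_eq_zero.1 h4 with h5 | h5
      · exact Or.inr (Or.inl (sub_eq_zero.1 h5))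
      · exact Or.inr (Or.inr (eq_neg_of_add_eq_zero_left h5))
  · exact absurd h2 hx0

lemma apply_pP {D : Module.End K V} (hD : D * D * D = D) (x : V) : D (pP D x) = (1 : K) • pP D x := by
  rw [one_smul]
  exact congrArg (fun f => f x) (D_pP hD)

lemma apply_pZ {D : Module.End K V} (hD : D * D * D = D) (x : V) : D (pZ D x) = (0 : K) • pZ D x := by
  rw [zero_smul]
  exact congrArg (fun f => f x) (D_pZ hD)

lemma apply_pQ {D : Module.End K V} (hD : D * D * D = D) (x : V) :
    D (pQ D x) = (-1 : K) • pQ D x := by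
  rw [neg_one_smul]
  exact congrArg (fun f => f x) (D_pQ hD)

lemma sum_apply [CharZero K] (D : Module.End K V) (x : V) : x = pP D x + pZ D x + pQ D x := by
  have := congrArg (fun f => f x) (p_sum D)
  simpa using this.symm

/-- **Homogeneous components.** -/
lemma comps [CharZero K] {s : Submodule K (Module.End K V)} (hs : LieClosed s)
    {D : Module.End K V} (hDs : D ∈ s) (hD : D * D * D = D) {X : Module.End K V} (hX : X ∈ s) :
    (pP D * X * pQ D ∈ s ∧ pP D * X * pZ D + pZ D * X * pQ D ∈ s ∧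
      pP D * X * pP D + pQ D * X * pQ D + pZ D * X * pZ D ∈ s ∧
      pZ D * X * pP D + pQ D * X * pZ D ∈ s ∧ pQ D * X * pP D ∈ s) := by
  obtain ⟨P, hP⟩ : ∃ P, P = pP D := ⟨_, rfl⟩
  obtain ⟨Q, hQ⟩ : ∃ Q, Q = pQ D := ⟨_, rfl⟩
  obtain ⟨Z, hZ⟩ : ∃ Z, Z = pZ D := ⟨_, rfl⟩
  have d1 := D_pP hD
  have d2 := pP_D hD
  have d3 := D_pQ hD
  have d4 := pQ_D hD
  have d5 := D_pZ hD
  have d6 := pZ_D hD
  have hsum := p_sum D
  rw [← hP, ← hZ, ← hQ] at *
  obtain ⟨A, hA⟩ : ∃ A, A = P * X * Q := ⟨_, rfl⟩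
  obtain ⟨B, hB⟩ : ∃ B, B = P * X * Z + Z * X * Q := ⟨_, rfl⟩
  obtain ⟨C, hC⟩ : ∃ C, C = P * X * P + Q * X * Q + Z * X * Z := ⟨_, rfl⟩
  obtain ⟨E, hE⟩ : ∃ E, E = Z * X * P + Q * X * Z := ⟨_, rfl⟩
  obtain ⟨F, hF⟩ : ∃ F, F = Q * X * P := ⟨_, rfl⟩
  have hA' : D * A - A * D = (2 : K) • A := by
    rw [hA, ← mul_assoc, ← mul_assoc, d1, mul_assoc (P * X) Q D, d4]
    rw [mul_neg, sub_neg_eq_add, two_smul]
  have hB' : D * B - B * D = B := by
    rw [hB, mul_add, add_mul]
    simp only [← mul_assoc, d1, d5]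
    rw [mul_assoc (P * X) Z D, d6, mul_assoc (Z * X) Q D, d4]
    simp
  have hC' : D * C - C * D = 0 := by
    rw [hC, mul_add, mul_add, add_mul, add_mul]
    simp only [← mul_assoc, d1, d3, d5]
    rw [mul_assoc (P * X) P D, d2, mul_assoc (Q * X) Q D, d4, mul_assoc (Z * X) Z D, d6]
    simp
  have hE' : D * E - E * D = - E := by
    rw [hE, mul_add, add_mul]
    simp only [← mul_assoc, d3, d5]
    rw [mul_assoc (Z * X) P D, d2, mul_assoc (Q * X) Z D, d6]
    simp only [zero_mul, neg_mul, mul_zero]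
    abel
  have hF' : D * F - F * D = -((2 : K) • F) := by
    rw [hF, ← mul_assoc, ← mul_assoc, d3, mul_assoc (Q * X) P D, d2]
    rw [neg_mul, neg_mul, two_smul]
    abel
  have hXs : X = A + B + C + E + F := by
    have h1 : X = (P + Z + Q) * X * (P + Z + Q) := by rw [hsum]; simp
    rw [hA, hB, hC, hE, hF]
    conv_lhs => rw [h1]
    noncomm_ring
  have adD : ∀ a b c d e : K, D * (a • A + b • B + c • C + d • E + e • F) -
      (a • A + b • B + c • C + d • E + e • F) * D =
      (2 * a) • A + b • B + (0 : K) • C + (-d) • E + (-(2 * e)) • F := by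
    intro a b c d e
    simp only [mul_add, add_mul, mul_smul_comm, smul_mul_assoc]
    have e1 : a • (D * A) + b • (D * B) + c • (D * C) + d • (D * E) + e • (D * F) -
      (a • (A * D) + b • (B * D) + c • (C * D) + d • (E * D) + e • (F * D)) =
      a • (D * A - A * D) + b • (D * B - B * D) + c • (D * C - C * D) + d • (D * E - E * D) +
        e • (D * F - F * D) := by module
    rw [e1, hA', hB', hC', hE', hF']
    module
  have m0 : (1 : K) • A + (1 : K) • B + (1 : K) • C + (1 : K) • E + (1 : K) • F ∈ s := by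
    simpa only [one_smul, ← hXs] using hX
  have step : ∀ a b c d e : K, a • A + b • B + c • C + d • E + e • F ∈ s →
      (2 * a) • A + b • B + (0 : K) • C + (-d) • E + (-(2 * e)) • F ∈ s := by
    intro a b c d e h
    rw [← adD]
    exact hs _ hDs _ h
  have m1 := step _ _ _ _ _ m0
  have m2 := step _ _ _ _ _ m1
  have m3 := step _ _ _ _ _ m2
  have m4 := step _ _ _ _ _ m3
  have get : ∀ (M : Module.End K V) (x y z w v : K),
      M = x • ((1 : K) • A + (1 : K) • B + (1 : K) • C + (1 : K) • E + (1 : K) • F) +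
        y • ((2 * 1 : K) • A + (1 : K) • B + (0 : K) • C + (-1 : K) • E + (-(2 * 1) : K) • F) +
        z • ((2 * (2 * 1) : K) • A + (1 : K) • B + (0 : K) • C + (- -1 : K) • E +
          (-(2 * (-(2 * 1))) : K) • F) +
        w • ((2 * (2 * (2 * 1)) : K) • A + (1 : K) • B + (0 : K) • C + (- - -1 : K) • E +
          (-(2 * (-(2 * (-(2 * 1))))) : K) • F) +
        v • ((2 * (2 * (2 * (2 * 1))) : K) • A + (1 : K) • B + (0 : K) • C + (- - - -1 : K) • E +
          (-(2 * (-(2 * (-(2 * (-(2 * 1)))))) ) : K) • F) → M ∈ s := by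
    rintro M x y z w v rfl
    exact s.add_mem (s.add_mem (s.add_mem (s.add_mem (s.smul_mem _ m0) (s.smul_mem _ m1))
      (s.smul_mem _ m2)) (s.smul_mem _ m3)) (s.smul_mem _ m4)
  refine ⟨?_, ?_, ?_, ?_, ?_⟩
  · rw [← hA]
    refine get A 0 (-1 / 12) (-1 / 24) (1 / 12) (1 / 24) ?_
    match_scalars <;> norm_num
  · rw [← hB]
    refine get B 0 (2 / 3) (2 / 3) (-1 / 6) (-1 / 6) ?_
    match_scalars <;> norm_num
  · rw [← hC]
    refine get C 1 0 (-5 / 4) 0 (1 / 4) ?_
    match_scalars <;> norm_num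
  · rw [← hE]
    refine get E 0 (-2 / 3) (2 / 3) (1 / 6) (-1 / 6) ?_
    match_scalars <;> norm_num
  · rw [← hF]
    refine get F 0 (1 / 12) (-1 / 24) (-1 / 12) (1 / 24) ?_
    match_scalars <;> norm_num

/-- every element of `s` is the sum of its homogeneous components, which lie in `s`. -/
lemma exists_comps [CharZero K] {s : Submodule K (Module.End K V)} (hs : LieClosed s)
    {D : Module.End K V} (hDs : D ∈ s) (hD : D * D * D = D) {X : Module.End K V} (hX : X ∈ s) :
    ∃ A ∈ s, ∃ B ∈ s, ∃ C ∈ s, ∃ E ∈ s, ∃ F ∈ s, Hg D 2 A ∧ Hg D 1 B ∧ Hg D 0 C ∧ Hg D (-1) E ∧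
      Hg D (-2) F ∧ X = A + B + C + E + F := by
  obtain ⟨m1, m2, m3, m4, m5⟩ := comps hs hDs hD hX
  have d1 := D_pP hD
  have d2 := pP_D hD
  have d3 := D_pQ hD
  have d4 := pQ_D hD
  have d5 := D_pZ hD
  have d6 := pZ_D hD
  have hsum := p_sum D
  generalize pP D = P at *
  generalize pQ D = Q at *
  generalize pZ D = Z at *
  have base : ∀ (R S : Module.End K V) (k l : K), D * R = k • R → S * D = l • S →
      Hg D (k - l) (R * X * S) := by
    intro R S k l hR hS
    unfold Hg
    rw [← mul_assoc, ← mul_assoc, hR, mul_assoc (R * X) S D, hS]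
    simp only [smul_mul_assoc, mul_smul_comm]
    rw [sub_smul]
  have hP1 : D * P = (1 : K) • P := by rw [d1, one_smul]
  have hP2 : P * D = (1 : K) • P := by rw [d2, one_smul]
  have hQ1 : D * Q = (-1 : K) • Q := by rw [d3, neg_one_smul]
  have hQ2 : Q * D = (-1 : K) • Q := by rw [d4, neg_one_smul]
  have hZ1 : D * Z = (0 : K) • Z := by rw [d5, zero_smul]
  have hZ2 : Z * D = (0 : K) • Z := by rw [d6, zero_smul]
  refine ⟨_, m1, _, m2, _, m3, _, m4, _, m5, ?_, ?_, ?_, ?_, ?_, ?_⟩
  · exact (base P Q _ _ hP1 hQ2).congr (by norm_num)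
  · exact ((base P Z _ _ hP1 hZ2).congr (by norm_num)).add
      ((base Z Q _ _ hZ1 hQ2).congr (by norm_num))
  · exact (((base P P _ _ hP1 hP2).congr (by norm_num)).add
      ((base Q Q _ _ hQ1 hQ2).congr (by norm_num))).add
      ((base Z Z _ _ hZ1 hZ2).congr (by norm_num))
  · exact ((base Z P _ _ hZ1 hP2).congr (by norm_num)).add
      ((base Q Z _ _ hQ1 hZ2).congr (by norm_num))
  · exact (base Q P _ _ hQ1 hP2).congr (by norm_num)
  · have h1 : X = (P + Z + Q) * X * (P + Z + Q) := by rw [hsum]; simp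
    conv_lhs => rw [h1]
    noncomm_ring

end Pool.Agent.Helper29.MX
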