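import Pool.Agent.Helper29.MX.Dual
import Pool.Agent.Helper29.MX.Trans

/-!
# Blocks
-/

namespace Pool.Agent.Helper29.MX

open LinearMap Pool.Agent.Helper66.OTR

set_option linter.unusedSectionVars false

variable {K V : Type*} [Field K] [AddCommGroup V] [Module K V] [FiniteDimensional K V]

/-- restriction of the elements of `g` to `W` -/
def res (g : Submodule K (Module.End K V)) (W : Submodule K V) :
    Submodule K (Module.End K W) where
  carrier := {Y | ∃ X ∈ g, ∀ x : W, (Y x : V) = X x}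
  zero_mem' := ⟨0, g.zero_mem, fun x => by simp⟩
  add_mem' := by
    rintro a b ⟨X, hX, h⟩ ⟨Y, hY, h'⟩
    exact ⟨X + Y, g.add_mem hX hY, fun x => by simp [h, h']⟩
  smul_mem' := by
    rintro t a ⟨X, hX, h⟩
    exact ⟨t • X, g.smul_mem t hX, fun x => by simp [h]⟩

/-- irreducible stable subspaces -/
def IrrW (g : Submodule K (Module.End K V)) (W : Submodule K V) : Prop :=
  W ≠ ⊥ ∧ ∀ U ≤ W, Stab g U → U = ⊥ ∨ U = W

variable {ψ : LinearMap.BilinForm K V} {g : Submodule K (Module.End K V)}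
variable {D : Module.End K V} {γ : V ≃ₗ[K] V} {c : K}

lemma res_closed (hg : LieClosed g) (W : Submodule K V) : LieClosed (res g W) := by
  rintro a ⟨X, hX, h⟩ b ⟨Y, hY, h'⟩
  exact ⟨X * Y - Y * X, hg _ hX _ hY, fun x => by simp [h, h']⟩

lemma res_irred {W : Submodule K V} (hW : Stab g W) (h : IrrW g W) : Irred (res g W) := by
  refine ⟨(Submodule.nontrivial_iff_ne_bot).2 h.1, fun U hU => ?_⟩
  rcases h.2 (U.map W.subtype) (by
    rintro _ ⟨x, -, rfl⟩
    exact x.2) (by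
    rintro X hX _ ⟨x, hx, rfl⟩
    exact ⟨X.restrict (hW X hX) x, hU _ ⟨X, hX, fun _ => rfl⟩ x hx, rfl⟩) with h1 | h1
  · left
    rw [eq_bot_iff]
    intro x hx
    have : (x : V) ∈ U.map W.subtype := ⟨x, hx, rfl⟩
    rw [h1, Submodule.mem_bot] at this
    exact Subtype.ext this
  · right
    rw [eq_top_iff]
    intro x _
    have : (x : V) ∈ U.map W.subtype := by rw [h1]; exact x.2
    obtain ⟨y, hy, hyx⟩ := this
    have : y = x := Subtype.ext hyx
    exact this ▸ hy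

/-- skew elements of `g` which kill `M` -/
def ann (ψ : LinearMap.BilinForm K V) (g : Submodule K (Module.End K V)) (M : Submodule K V) :
    Submodule K (Module.End K V) where
  carrier := {X | X ∈ g ∧ Skew ψ X ∧ ∀ x ∈ M, X x = 0}
  zero_mem' := ⟨g.zero_mem, fun x y => by simp, fun x _ => rfl⟩
  add_mem' := by
    rintro a b ⟨h1, h2, h3⟩ ⟨h1', h2', h3'⟩
    refine ⟨g.add_mem h1 h1', fun x y => ?_, fun x hx => ?_⟩
    · rw [LinearMap.add_apply, map_add, LinearMap.add_apply, h2, h2', LinearMap.add_apply, map_add]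
      ring
    · rw [LinearMap.add_apply, h3 x hx, h3' x hx, add_zero]
  smul_mem' := by
    rintro t a ⟨h1, h2, h3⟩
    refine ⟨g.smul_mem t h1, fun x y => ?_, fun x hx => ?_⟩
    · rw [LinearMap.smul_apply, map_smul, LinearMap.smul_apply, h2, LinearMap.smul_apply, map_smul]
      simp only [smul_eq_mul]
      ring
    · rw [LinearMap.smul_apply, h3 x hx, smul_zero]

lemma ann_le (ψ : LinearMap.BilinForm K V) (g : Submodule K (Module.End K V)) (M : Submodule K V) :
    ann ψ g M ≤ g := fun _ hX => hX.1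

lemma skew_comm (d : Dat ψ g D γ c) {X Z : Module.End K V} (hX : X ∈ g) (hZ : Skew ψ Z) :
    Skew ψ (X * Z - Z * X) := by
  intro x y
  obtain ⟨m, hm⟩ := d.gsp X hX
  have h1 := hm (Z x) y
  have h2 := hm x (Z y)
  have h3 := hZ (X x) y
  have h4 := hZ x (X y)
  have h5 := hZ x y
  simp only [LinearMap.sub_apply, Module.End.mul_apply, map_sub]
  linear_combination h1 - h3 - h4 + h2 + m * h5

lemma ann_ideal (d : Dat ψ g D γ c) {M : Submodule K V} (hM : Stab g M) {X Z : Module.End K V}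
    (hX : X ∈ g) (hZ : Z ∈ ann ψ g M) : X * Z - Z * X ∈ ann ψ g M := by
  obtain ⟨h1, h2, h3⟩ := hZ
  refine ⟨d.closed _ hX _ h1, skew_comm d hX h2, fun x hx => ?_⟩
  rw [LinearMap.sub_apply, Module.End.mul_apply, Module.End.mul_apply, h3 x hx, map_zero,
    h3 _ (hM X hX x hx), sub_zero]

lemma res_ideal (d : Dat ψ g D γ c) {W M : Submodule K V} (hM : Stab g M)
    {X Z : Module.End K W} (hX : X ∈ res g W) (hZ : Z ∈ res (ann ψ g M) W) :
    X * Z - Z * X ∈ res (ann ψ g M) W := by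
  obtain ⟨X', hX', h⟩ := hX
  obtain ⟨Z', hZ', h'⟩ := hZ
  exact ⟨_, ann_ideal d hM hX' hZ', fun x => by simp [h, h']⟩

lemma res_mono {g' : Submodule K (Module.End K V)} (h : g' ≤ g) (W : Submodule K V) :
    res g' W ≤ res g W := by
  rintro Y ⟨X, hX, hY⟩
  exact ⟨X, h hX, hY⟩

lemma dot_skew (d : Dat ψ g D γ c) (u w : V) : Skew ψ (dot ψ u w) := by
  intro x y
  simp only [dot_apply, map_add, map_smul, LinearMap.add_apply, LinearMap.smul_apply, smul_eq_mul]
  rw [neg d x w, neg d x u]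
  ring

/-- **Nonisotropic blocks.** -/
theorem blockA [CharZero K] [IsAlgClosed K] (d : Dat ψ g D γ c) {W : Submodule K V}
    (hW : Stab g W) (hirr : IrrW g W) (hWW : ∀ x ∈ W, x ∈ ψ.orthogonal W → x = 0) {u w : V}
    (hu : u ∈ W) (hu0 : u ≠ 0) (hw0 : w ≠ 0) (huw : ψ u w = 0) (h : dot ψ u w ∈ g)
    {X : Module.End K V} (hX : Skew ψ X) (hXW : ∀ x ∈ W, X x ∈ W) :
    ∃ Z ∈ g, (∀ x ∈ W, Z x = X x) ∧ ∀ x ∈ ψ.orthogonal W, Z x = 0 := by
  have hM := stab_perp d hW
  have hwW : w ∈ W := by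
    rw [← perp_perp d W, mem_perp d]
    intro z hz
    by_contra hne
    apply hu0
    apply hWW u hu
    have h1 := hM _ h z hz
    rw [dot_apply] at h1
    have h2 : ψ u z = 0 := by
      rw [neg d, (mem_perp d).1 hz u hu, neg_zero]
    rw [h2, zero_smul, zero_add] at h1
    have h3 := (ψ.orthogonal W).smul_mem (ψ w z)⁻¹ h1
    rwa [smul_smul, inv_mul_cancel₀ hne, one_smul] at h3
  have hnd : (ψ.restrict W).Nondegenerate := by
    refine LinearMap.BilinForm.nondegenerate_restrict_of_disjoint_orthogonal ψ (isRefl d) ?_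
    rw [Submodule.disjoint_def]
    exact hWW
  have halt : ∀ x, (ψ.restrict W) x x = 0 := fun x => d.alt x
  have hgsp : ∀ X ∈ res g W, ∃ c : K, ∀ x y, (ψ.restrict W) (X x) y + (ψ.restrict W) x (X y) =
      c * (ψ.restrict W) x y := by
    rintro Y ⟨Y', hY', h'⟩
    obtain ⟨m, hm⟩ := d.gsp Y' hY'
    refine ⟨m, fun x y => ?_⟩
    have := hm x y
    rw [← h', ← h'] at this
    exact this
  have hirr' := res_irred hW hirr
  have S := spart_setup hnd halt (res_closed d.closed W) hgsp hirr'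
  obtain ⟨u', hu'⟩ : ∃ u' : W, (u' : V) = u := ⟨⟨u, hu⟩, rfl⟩
  obtain ⟨w', hw'⟩ : ∃ w' : W, (w' : V) = w := ⟨⟨w, hwW⟩, rfl⟩
  obtain ⟨N, hN⟩ : ∃ N, N = dot (ψ.restrict W) u' w' := ⟨_, rfl⟩
  have hNx : ∀ x : W, N x = ψ u x • w' + ψ w x • u' := by
    intro x
    rw [hN, dot_apply, ← hu', ← hw']
    rfl
  have hNv : ∀ x : W, (N x : V) = dot ψ u w x := by
    intro x
    rw [hNx, dot_apply]
    simp [hu', hw']
  have hNg : N ∈ res g W := ⟨_, h, hNv⟩
  have hwu : ψ w u = 0 := by rw [neg d, huw, neg_zero]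
  have hNN : N * N = 0 := by
    ext x
    rw [Module.End.mul_apply, LinearMap.zero_apply, hNv, hNx]
    simp [dot_apply, hu', hw', huw, hwu, d.alt]
  have hN0 : N ≠ 0 := by
    intro h0
    have hu'0 : u' ≠ 0 := by
      rintro rfl
      exact hu0 (by rw [← hu']; rfl)
    obtain ⟨x, hx⟩ := exists_ne_of_nd hnd hu'0
    have hx' : ψ u x ≠ 0 := by rw [← hu']; exact hx
    have h1 : (N x : V) = 0 := by rw [h0]; rfl
    rw [hNv, dot_apply] at h1
    have h2 := congrArg (fun z => ψ z x) h1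
    simp only [map_add, map_smul, LinearMap.add_apply, LinearMap.smul_apply, smul_eq_mul, map_zero,
      LinearMap.zero_apply] at h2
    have h3 : (2 * ψ u x) * ψ w x = 0 := by linear_combination h2
    have h4 : ψ w x = 0 := (mul_eq_zero.1 h3).resolve_left (mul_ne_zero two_ne_zero hx')
    rw [h4, zero_smul, add_zero] at h1
    exact hw0 ((smul_eq_zero.1 h1).resolve_left hx')
  have hnt : Nontrivial W := hirr'.1
  have hNs : N ∈ spart (ψ.restrict W) (res g W) := nilp_mem hnd hgsp hNg hNN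
  have hrk : Module.finrank K (LinearMap.range N) ≤ 2 := by
    classical
    have h1 : LinearMap.range N ≤ Submodule.span K ((({u', w'} : Finset W)) : Set W) := by
      rintro _ ⟨x, rfl⟩
      rw [hNx]
      exact Submodule.add_mem _ (Submodule.smul_mem _ _ (Submodule.subset_span (by simp)))
        (Submodule.smul_mem _ _ (Submodule.subset_span (by simp)))
    exact (Submodule.finrank_mono h1).trans
      ((finrank_span_finset_le_card _).trans Finset.card_le_two)
  have hrk0 : Module.finrank K (LinearMap.range N) ≠ 0 := by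
    intro h0
    rw [Submodule.finrank_eq_zero, LinearMap.range_eq_bot] at h0
    exact hN0 h0
  have hall : ∀ Y : Module.End K W, (∀ x y, (ψ.restrict W) (Y x) y = - (ψ.restrict W) x (Y y)) →
      Y ∈ spart (ψ.restrict W) (res g W) := by
    intro Y hY
    rcases (by omega : Module.finrank K (LinearMap.range N) = 1 ∨
      Module.finrank K (LinearMap.range N) = 2) with h1 | h1
    · exact S.rank_one hNs h1 hY
    · exact S.rank_two hNs hNN h1 hY
  have hall' : ∀ Y : Module.End K W, Skew (ψ.restrict W) Y → Y ∈ res g W := fun Y hY =>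
    sp_le_of_spart hnd halt (res_closed d.closed W) S hall hY
  have hNn : N ∈ res (ann ψ g (ψ.orthogonal W)) W := by
    refine ⟨_, ⟨h, dot_skew d u w, fun x hx => ?_⟩, hNv⟩
    rw [mem_perp d] at hx
    rw [dot_apply, neg d u, hx u hu, neg d w, hx w hwW]
    simp
  have hfin := sp_ideal S (n := res (ann ψ g (ψ.orthogonal W)) W)
    (fun Y hY Z hZ => res_ideal d hM (hall' Y hY) hZ) hNn hNs.1 hN0
    (X := X.restrict hXW) (fun x y => hX x y)
  obtain ⟨Z, hZ, hZX⟩ := hfin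
  exact ⟨Z, hZ.1, fun x hx => (hZX ⟨x, hx⟩).symm, hZ.2.2⟩

/-- **Isotropic blocks.** -/
theorem blockB [CharZero K] [IsAlgClosed K] (d : Dat ψ g D γ c) {W W' : Submodule K V}
    (hW : Stab g W) (hW' : Stab g W') (hirr : IrrW g W) (hiso : W ≤ ψ.orthogonal W)
    (hdis : ∀ x ∈ W', x ∈ ψ.orthogonal W → x = 0) {u w w₂ : V} (hu : u ∈ W) (hu0 : u ≠ 0)
    (hw : w ∈ W') (hw2 : w₂ ∈ W') (hw0 : w ≠ 0) (hind : ∀ t : K, w₂ ≠ t • w) (h1 : ψ w u = 0)
    (h2 : ψ w₂ u = 0) (hd1 : dot ψ u w ∈ g) (hd2 : dot ψ u w₂ ∈ g)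
    {X Y : Module.End K V} (hX : Skew ψ X) (hY : Skew ψ Y) (hXW : ∀ x ∈ W, X x ∈ W)
    (hYW : ∀ x ∈ W, Y x ∈ W) (hXW' : ∀ x ∈ W', X x ∈ W') (hYW' : ∀ x ∈ W', Y x ∈ W') :
    ∃ Z ∈ g, (∀ x ∈ W ⊔ W', Z x = (X * Y - Y * X) x) ∧
      ∀ x ∈ ψ.orthogonal (W ⊔ W'), Z x = 0 := by
  have hWW' : Stab g (W ⊔ W') := by
    intro T hT x hx
    obtain ⟨a, ha, b, hb, rfl⟩ := Submodule.mem_sup.1 hx
    rw [map_add]
    exact Submodule.add_mem_sup (hW T hT a ha) (hW' T hT b hb)
  have hM := stab_perp d hWW'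
  have hirr' := res_irred hW hirr
  obtain ⟨u', hu'⟩ : ∃ u' : W, (u' : V) = u := ⟨⟨u, hu⟩, rfl⟩
  have hu'0 : u' ≠ 0 := by
    rintro rfl
    exact hu0 (by rw [← hu']; rfl)
  have hmem : ∀ z ∈ W', dot ψ u z ∈ g →
      rk ((ψ z) ∘ₗ W.subtype) u' ∈ res (ann ψ g (ψ.orthogonal (W ⊔ W'))) W := by
    intro z hz hd
    refine ⟨_, ⟨hd, dot_skew d u z, fun x hx => ?_⟩, fun x => ?_⟩
    · rw [mem_perp d] at hx
      rw [dot_apply, neg d u, hx u (Submodule.mem_sup_left hu), neg d z,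
        hx z (Submodule.mem_sup_right hz)]
      simp
    · have h3 : ψ u x = 0 := by
        rw [neg d, (mem_perp d).1 (hiso x.2) u hu, neg_zero]
      rw [dot_apply, h3, zero_smul, zero_add, rk_apply, ← hu']
      rfl
  have hxi : ∀ z ∈ W', (ψ z) ∘ₗ W.subtype = 0 → z = 0 := by
    intro z hz h0
    refine hdis z hz ((mem_perp d).2 fun y hy => ?_)
    exact congrArg (fun f => f ⟨y, hy⟩) h0
  obtain ⟨C, hC⟩ : ∃ C, C = X * Y - Y * X := ⟨_, rfl⟩
  have hCsk : Skew ψ C := by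
    intro x y
    rw [hC]
    simp only [LinearMap.sub_apply, Module.End.mul_apply, map_sub]
    linear_combination hX (Y x) y - hY (X x) y - hY x (X y) + hX x (Y y)
  have hCW : ∀ x ∈ W, C x ∈ W := by
    intro x hx
    rw [hC]
    exact W.sub_mem (hXW _ (hYW _ hx)) (hYW _ (hXW _ hx))
  have hCW' : ∀ x ∈ W', C x ∈ W' := by
    intro x hx
    rw [hC]
    exact W'.sub_mem (hXW' _ (hYW' _ hx)) (hYW' _ (hXW' _ hx))
  have htr : trace K W (C.restrict hCW) = 0 := by
    have e : C.restrict hCW = X.restrict hXW * Y.restrict hYW - Y.restrict hYW * X.restrict hXW := by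
      refine LinearMap.ext fun x => Subtype.ext ?_
      show C x = X (Y x) - Y (X x)
      rw [hC]
      rfl
    rw [e, map_sub, LinearMap.trace_mul_comm, sub_self]
  have hfin := tr2 (res_closed d.closed W) hirr'
    (n := res (ann ψ g (ψ.orthogonal (W ⊔ W'))) W)
    (res_mono (ann_le ψ g _) W) (fun T hT Z hZ => res_ideal d hM hT hZ) (u := u')
    (ξ := (ψ w) ∘ₗ W.subtype) (θ := (ψ w₂) ∘ₗ W.subtype) (by
      show ψ w u' = 0
      rw [hu', h1]) (by
      show ψ w₂ u' = 0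
      rw [hu', h2]) (hmem w hw hd1) (hmem w₂ hw2 hd2) hu'0 (fun h0 => hw0 (hxi w hw h0)) (by
      intro t ht
      apply hind t
      rw [← sub_eq_zero]
      apply hxi _ (W'.sub_mem hw2 (W'.smul_mem t hw))
      rw [map_sub, map_smul, LinearMap.sub_comp, ht, LinearMap.smul_comp, sub_self]) htr
  obtain ⟨Z, hZ, hZC⟩ := hfin
  have hZW : ∀ x ∈ W, Z x = C x := fun x hx => (hZC ⟨x, hx⟩).symm
  have hZW' : ∀ x ∈ W', Z x = C x := by
    intro x hx
    rw [← sub_eq_zero]
    refine hdis _ (W'.sub_mem (hW' Z hZ.1 x hx) (hCW' x hx)) ((mem_perp d).2 fun y hy => ?_)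
    rw [map_sub, LinearMap.sub_apply, hZ.2.1, hCsk, hZW y hy, sub_self]
  refine ⟨Z, hZ.1, fun x hx => ?_, hZ.2.2⟩
  obtain ⟨a, ha, b, hb, rfl⟩ := Submodule.mem_sup.1 hx
  rw [map_add, hZW a ha, hZW' b hb, ← map_add, hC]

end Pool.Agent.Helper29.MX
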