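import Pool.Agent.Helper29.MX.Eig
import Pool.Agent.Helper66.OTR.Grad

/-!
# The dual of a simple eigenvector and elements of rank two
-/

namespace Pool.Agent.Helper29.MX

open LinearMap Pool.Agent.Helper66.OTR Polynomial

set_option linter.unusedSectionVars false

variable {K V : Type*} [Field K] [AddCommGroup V] [Module K V] [FiniteDimensional K V]

/-- simple eigenvector of degree `i` -/
structure Simp (D : Module.End K V) (γ : V ≃ₗ[K] V) (i α : K) (u : V) : Prop where
  ne : u ≠ 0
  deg : D u = i • u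
  ev : γ u = α • u
  simple : ∀ (x : V) (n : ℕ), D x = i • x → ((Gm γ - α • (1 : Module.End K V)) ^ n) x = 0 →
    ∃ t : K, x = t • u

variable {ψ : LinearMap.BilinForm K V} {g : Submodule K (Module.End K V)}
variable {D : Module.End K V} {γ : V ≃ₗ[K] V} {c : K}

/-- the orthogonal complement, as a set of conditions -/
lemma mem_perp (d : Dat ψ g D γ c) {W : Submodule K V} {x : V} :
    x ∈ ψ.orthogonal W ↔ ∀ y ∈ W, ψ x y = 0 := by
  rw [LinearMap.BilinForm.mem_orthogonal_iff]
  constructor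
  · intro h y hy
    rw [neg d, neg_eq_zero]
    exact h y hy
  · intro h y hy
    show ψ y x = 0
    rw [neg d, neg_eq_zero]
    exact h y hy

lemma isRefl (d : Dat ψ g D γ c) : ψ.IsRefl := by
  intro x y h
  rw [neg d, h, neg_zero]

lemma perp_perp (d : Dat ψ g D γ c) (W : Submodule K V) : ψ.orthogonal (ψ.orthogonal W) = W :=
  LinearMap.BilinForm.orthogonal_orthogonal d.nd (isRefl d) W

lemma stab_perp (d : Dat ψ g D γ c) {W : Submodule K V} (hW : Stab g W) :
    Stab g (ψ.orthogonal W) := by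
  intro X hX x hx
  rw [mem_perp d] at hx ⊢
  intro y hy
  obtain ⟨m, hm⟩ := d.gsp X hX
  have h := hm x y
  rw [hx y hy, hx _ (hW X hX y hy)] at h
  simpa using h

/-- **The dual vector.** -/
theorem exists_dual [CharZero K] (d : Dat ψ g D γ c) {i α : K} (hi : i = 0 ∨ i = 1 ∨ i = -1)
    {B : Submodule K V} (hB : Stab g B) (hBB : ∀ x ∈ B, x ∈ ψ.orthogonal B → x = 0) {u : V}
    (hu : Simp D γ i α u) (huB : u ∈ B) :
    ∃ v ∈ B, D v = (-i) • v ∧ γ v = (c / α) • v ∧ ψ v u = 1 := by
  have hα : α ≠ 0 := EV.ne_zero (D := D) (γ := γ) (a := i) ⟨u, hu.ne, hu.deg, hu.ev⟩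
  obtain ⟨P, p1, p2, p3, p4, p5⟩ := exists_proj d hi
  obtain ⟨F, hF⟩ : ∃ F : Module.End K V, F = (Gm γ - α • 1) * P + (1 - P) := ⟨_, rfl⟩
  have hFa : ∀ x, F x = γ (P x) - α • P x + (x - P x) := by
    intro x
    rw [hF]
    simp
  have hPF : ∀ x, P (F x) = γ (P x) - α • P x := by
    intro x
    rw [hFa, map_add, map_sub, map_sub, map_smul, p4, p2 _ (p1 x)]
    abel
  have hker : ∀ x, F x = 0 → P x = x ∧ ∃ t : K, x = t • u := by
    intro x hx
    have h1 := hPF x
    rw [hx, map_zero] at h1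
    have h2 := hFa x
    rw [hx, ← h1, zero_add] at h2
    have h3 : P x = x := (sub_eq_zero.1 h2.symm).symm
    refine ⟨h3, hu.simple x 1 (by rw [← h3]; exact p1 x) ?_⟩
    rw [pow_one]
    rw [h3] at h1
    simpa using h1.symm
  have hun : u ∉ LinearMap.range F := by
    rintro ⟨x, hx⟩
    have h1 := hPF x
    rw [hx, p2 _ hu.deg] at h1
    obtain ⟨t, ht⟩ := hu.simple (P x) 2 (p1 x) (by
      rw [pow_two, Module.End.mul_apply]
      have e : (Gm γ - α • (1 : Module.End K V)) (P x) = u := by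
        rw [h1]; simp
      rw [e]
      simp [hu.ev])
    rw [ht, map_smul, hu.ev, smul_comm, sub_self] at h1
    exact hu.ne h1
  -- the complement of `B` is in the range
  have hPB : Stab g (ψ.orthogonal B) := stab_perp d hB
  have hle : ψ.orthogonal B ≤ LinearMap.range F := by
    have hst : ∀ x ∈ ψ.orthogonal B, F x ∈ ψ.orthogonal B := by
      intro x hx
      rw [hFa]
      have h1 := p5 _ hPB x hx
      exact Submodule.add_mem _ (Submodule.sub_mem _ (d.pres _ hPB _ h1) (Submodule.smul_mem _ _ h1))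
        (Submodule.sub_mem _ hx h1)
    have hinj : Function.Injective (F.restrict hst) := by
      rw [injective_iff_map_eq_zero]
      rintro ⟨x, hx⟩ h
      have h1 : F x = 0 := congrArg Subtype.val h
      obtain ⟨-, t, ht⟩ := hker x h1
      have h2 : x = 0 := hBB x (by rw [ht]; exact B.smul_mem _ huB) hx
      exact Subtype.ext h2
    have hsurj := LinearMap.injective_iff_surjective.1 hinj
    intro x hx
    obtain ⟨⟨y, hy⟩, h⟩ := hsurj ⟨x, hx⟩
    exact ⟨y, congrArg Subtype.val h⟩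
  obtain ⟨q₀, hq₀u, hq₀⟩ := Submodule.exists_dual_map_eq_bot_of_notMem hun inferInstance
  have hq₀F : ∀ x, q₀ (F x) = 0 := by
    intro x
    have : q₀ (F x) ∈ (LinearMap.range F).map q₀ := ⟨F x, ⟨x, rfl⟩, rfl⟩
    rw [hq₀, Submodule.mem_bot] at this
    exact this
  obtain ⟨q, hq⟩ : ∃ q : V →ₗ[K] K, q = (q₀ u)⁻¹ • q₀ := ⟨_, rfl⟩
  have hqu : q u = 1 := by
    rw [hq, LinearMap.smul_apply, smul_eq_mul, inv_mul_cancel₀ hq₀u]
  have hqF : ∀ x, q (F x) = 0 := by
    intro x
    rw [hq, LinearMap.smul_apply, hq₀F, smul_zero]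
  have hqP : ∀ x, q x = q (P x) := by
    intro x
    have h1 := hqF (x - P x)
    rw [hFa] at h1
    have h2 : P (x - P x) = 0 := by rw [map_sub, p2 _ (p1 x), sub_self]
    rw [h2] at h1
    simp only [map_zero, smul_zero, sub_zero, zero_add, map_sub] at h1
    exact sub_eq_zero.1 h1
  have hqγ : ∀ x, q (γ x) = α * q x := by
    intro x
    have h1 := hqF (P x)
    rw [hFa, p2 _ (p1 x), sub_self, add_zero, map_sub, map_smul, smul_eq_mul] at h1
    rw [hqP (γ x), p4, hqP x]
    exact sub_eq_zero.1 h1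
  have hqD : ∀ x, q (D x) = i * q x := by
    intro x
    rw [hqP (D x), p3, map_smul, ← hqP, smul_eq_mul]
  obtain ⟨v, hv⟩ := exists_rep d q
  refine ⟨v, ?_, ?_, ?_, ?_⟩
  · rw [← perp_perp d B, mem_perp d]
    intro y hy
    rw [hv]
    obtain ⟨z, rfl⟩ := hle hy
    exact hqF z
  · rw [← sub_eq_zero]
    apply nd_eq d
    intro y
    rw [map_sub, LinearMap.sub_apply, d.Dsk, hv, map_smul, LinearMap.smul_apply, hv, hqD,
      smul_eq_mul]
    ring
  · rw [← sub_eq_zero]
    apply nd_eq d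
    intro y
    obtain ⟨z, rfl⟩ := γ.surjective y
    rw [map_sub, LinearMap.sub_apply, d.sim, hv, map_smul, LinearMap.smul_apply, hv, hqγ,
      smul_eq_mul]
    field_simp
    ring
  · rw [hv, hqu]

/-- **Rank two elements.** -/
theorem exists_dot [CharZero K] [IsAlgClosed K] (d : Dat ψ g D γ c) {i α : K} (hi : i = 0 ∨ i = 1)
    {B : Submodule K V} (hB : Stab g B) (hBB : ∀ x ∈ B, x ∈ ψ.orthogonal B → x = 0)
    (H : ∀ W ≤ B, Stab g W → W ≠ ⊥ → (∃ x ∈ W, x ≠ 0 ∧ D x = (1 : K) • x) ∧
      (∃ x ∈ W, x ≠ 0 ∧ D x = (0 : K) • x))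
    {u : V} (hu : Simp D γ i α u) (huB : u ∈ B)
    (hrel : ∀ α' β β' : K, α' ≠ α → EV D γ i α' → EV D γ (i - 1) β → EV D γ (i - 1) β' →
      α * β' ≠ α' * β) :
    ∃ w, w ≠ 0 ∧ D w = (1 - i) • w ∧ dot ψ u w ∈ g := by
  have hi' : i = 0 ∨ i = 1 ∨ i = -1 := by
    rcases hi with h | h
    · exact Or.inl h
    · exact Or.inr (Or.inl h)
  have hα : α ≠ 0 := EV.ne_zero (D := D) (γ := γ) (a := i) ⟨u, hu.ne, hu.deg, hu.ev⟩
  obtain ⟨v, hvB, hDv, hγv, hvu⟩ := exists_dual d hi' hB hBB hu huB
  have hv0 : v ≠ 0 := by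
    rintro rfl
    simp at hvu
  -- homogeneous elements of `g` which do not kill `v`
  obtain ⟨A, hA⟩ : ∃ A : Submodule K (Module.End K V), ∀ X, X ∈ A ↔ X ∈ g ∧ Hg D 1 X := by
    refine ⟨{
      carrier := {X | X ∈ g ∧ Hg D 1 X}
      zero_mem' := ⟨g.zero_mem, by simp [Hg]⟩
      add_mem' := fun h h' => ⟨g.add_mem h.1 h'.1, h.2.add h'.2⟩
      smul_mem' := fun t X h => ⟨g.smul_mem t h.1, h.2.smul t⟩ }, fun X => Iff.rfl⟩
  have hAs : ∀ X ∈ A, cj γ X ∈ A := by
    intro X hX
    rw [hA] at hX ⊢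
    refine ⟨d.ad X hX.1, ?_⟩
    have h1 := hX.2
    unfold Hg at h1 ⊢
    ext x
    obtain ⟨y, rfl⟩ := γ.surjective x
    have h2 := congrArg (fun f => γ (f y)) h1
    simp only [LinearMap.sub_apply, Module.End.mul_apply, LinearMap.smul_apply, map_sub,
      map_smul] at h2
    simp only [LinearMap.sub_apply, Module.End.mul_apply, LinearMap.smul_apply, cj_apply']
    rw [← d.comm, ← d.comm, cj_apply', h2]
  obtain ⟨χ, X, hXA, hXχ, hXv⟩ : ∃ χ : K, ∃ X ∈ A, X ∈ (cj γ).maxGenEigenspace χ ∧ X v ≠ 0 := by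
    by_contra hcon
    push Not at hcon
    obtain ⟨X, hX, hX1, hXv⟩ := hit d.closed d.Dg d.D3 hB H (a := -i) (by
      rcases hi with rfl | rfl
      · exact Or.inl neg_zero
      · exact Or.inr rfl) hvB hDv hv0
    apply hXv
    refine hom_induction hAs (p := fun X => X v = 0) rfl (fun X Y h1 h2 => ?_)
      (fun μ Z hZ hZμ => hcon μ Z hZ hZμ) ((hA X).2 ⟨hX, hX1⟩)
    rw [LinearMap.add_apply, h1, h2, add_zero]
  rw [hA] at hXA
  obtain ⟨hXg, hX1⟩ := hXA
  have hγv' : v ∈ ge γ (c / α) := by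
    rw [Module.End.mem_maxGenEigenspace]
    refine ⟨1, ?_⟩
    rw [pow_one]
    simp [hγv]
  have hXv' := map_gen hXχ hγv'
  rw [Module.End.mem_maxGenEigenspace] at hXv'
  obtain ⟨n, hn⟩ := hXv'
  have hev1 : EV D γ (1 - i) (χ * (c / α)) :=
    exists_ev d hXv (x := X v) (by rw [hX1.apply hDv, sub_eq_add_neg]) hn
  have hχc : χ * (c / α) ≠ 0 := hev1.ne_zero
  have hχ : χ ≠ 0 := left_ne_zero_of_mul hχc
  have hc : c ≠ 0 := by
    rintro rfl
    simp at hχc
  have hev2 : EV D γ (i - 1) (α / χ) := by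
    have h1 := EV.dual d (by
      rcases hi with rfl | rfl
      · right; left; ring
      · left; ring) hev1
    have e1 : -(1 - i) = i - 1 := by ring
    have e2 : c / (χ * (c / α)) = α / χ := by
      field_simp
    rwa [e1, e2] at h1
  -- skewness of `X`
  have hXsk : Skew ψ X := by
    intro x y
    obtain ⟨m, hm⟩ := d.gsp X hXg
    have h1 : ∀ x, X x = D (X x) - X (D x) := by
      intro x
      have := congrArg (fun f => f x) hX1
      simpa using this.symm
    have h2 := hm x y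
    have h3 := hm (D x) y
    have h4 := hm x (D y)
    have e1 : ψ (X x) y = ψ (D (X x)) y - ψ (X (D x)) y := by
      conv_lhs => rw [h1 x]
      rw [map_sub, LinearMap.sub_apply]
    have e2 : ψ x (X y) = ψ x (D (X y)) - ψ x (X (D y)) := by
      conv_lhs => rw [h1 y]
      rw [map_sub]
    have e3 := d.Dsk (X x) y
    have e4 := d.Dsk x (X y)
    have e5 := d.Dsk x y
    rw [e1, e2]
    linear_combination e3 - h3 - h4 - m * e5 + e4
  -- the degree `i - 1`
  have hi1 : i - 1 = 0 ∨ i - 1 = 1 ∨ i - 1 = -1 := by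
    rcases hi with rfl | rfl
    · right; right; ring
    · left; ring
  obtain ⟨P, p1, p2, p3, p4, -⟩ := exists_proj d hi1
  have hXP : ∀ y, ∃ t : K, X (P y) = t • u := by
    intro y
    refine vec_induction (γ := γ) (p := fun y => ∃ t : K, X (P y) = t • u) ?_ ?_ ?_ y
    · exact ⟨0, by simp⟩
    · rintro x y ⟨s, hs⟩ ⟨t, ht⟩
      exact ⟨s + t, by rw [map_add, map_add, hs, ht, add_smul]⟩
    · intro β' x hx
      by_cases h0 : X (P x) = 0
      · exact ⟨0, by rw [h0, zero_smul]⟩
      have hPx : P x ∈ ge γ β' := by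
        rw [Module.End.mem_maxGenEigenspace] at hx ⊢
        obtain ⟨k, hk⟩ := hx
        refine ⟨k, ?_⟩
        have hcm : Commute P (Gm γ) := by
          ext z
          simp [p4]
        have hcm2 : Commute P ((Gm γ - β' • (1 : Module.End K V)) ^ k) :=
          (hcm.sub_right (Commute.smul_right (Commute.one_right _) β')).pow_right k
        have h2 := congrArg (fun f => f x) hcm2.eq
        simp only [Module.End.mul_apply, hk, map_zero] at h2
        exact h2.symm
      have hXPx := map_gen hXχ hPx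
      have hPx0 : P x ≠ 0 := by
        intro h; rw [h, map_zero] at h0; exact h0 rfl
      have hDX : D (X (P x)) = i • X (P x) := by
        rw [hX1.apply (p1 x)]
        congr 1
        ring
      rw [Module.End.mem_maxGenEigenspace] at hXPx hPx
      obtain ⟨k, hk⟩ := hXPx
      obtain ⟨k', hk'⟩ := hPx
      have e1 : EV D γ i (χ * β') := exists_ev d h0 hDX hk
      have e2 : EV D γ (i - 1) β' := exists_ev d hPx0 (p1 x) hk'
      have e3 : χ * β' = α := by
        by_contra hne
        apply hrel _ _ _ hne e1 hev2 e2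
        field_simp
      rw [e3] at hk
      exact hu.simple _ k hDX hk
  obtain ⟨y₀, hy₀⟩ := exists_ne_of_nd d.nd hu.ne
  have hX' : ∀ y, X (P y) = (ψ (X (P y)) v * (-1)) • u := by
    intro y
    obtain ⟨t, ht⟩ := hXP y
    rw [ht, map_smul, LinearMap.smul_apply, smul_eq_mul, neg d u v, hvu]
    congr 1
    ring
  obtain ⟨w, hw⟩ := exists_rep d ((-1 : K) • ((ψ.flip v) ∘ₗ X ∘ₗ P))
  have hw' : ∀ y, ψ w y = ψ (X (P y)) v * (-1) := by
    intro y
    rw [hw]
    simp
  have hXw : ∀ y, X (P y) = ψ w y • u := by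
    intro y
    rw [hw']
    exact hX' y
  have hDw : D w = (1 - i) • w := by
    rw [← sub_eq_zero]
    apply nd_eq d
    intro y
    rw [map_sub, LinearMap.sub_apply, d.Dsk, map_smul, LinearMap.smul_apply, smul_eq_mul,
      hw' (D y), p3, map_smul, map_smul, LinearMap.smul_apply, smul_eq_mul, hw' y]
    ring
  have h2i : (1 - i) + (-i) ≠ 0 := by
    rcases hi with rfl | rfl
    · norm_num
    · norm_num
  have hwv : ψ w v = 0 := ortho d hDw hDv h2i
  -- `X = u . w`
  have key : ∀ (a b : K) (x y : V), D x = a • x → D y = b • y →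
      ψ (X x) y = ψ (dot ψ u w x) y := by
    intro a b x y hx hy
    have hXx := hX1.apply hx
    rw [dot_apply, map_add, map_smul, map_smul, LinearMap.add_apply, LinearMap.smul_apply,
      LinearMap.smul_apply, smul_eq_mul, smul_eq_mul]
    by_cases ha : a = i - 1
    · rw [ha] at hx
      have e1 : X x = ψ w x • u := by rw [← hXw, p2 _ hx]
      have e2 : ψ u x = 0 := ortho d hu.deg hx (by
        rcases hi with rfl | rfl
        · norm_num
        · norm_num)
      rw [e1, e2, map_smul, LinearMap.smul_apply, smul_eq_mul]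
      ring
    by_cases hb : b = i - 1
    · rw [hb] at hy
      have e1 : X y = ψ w y • u := by rw [← hXw, p2 _ hy]
      have e2 : ψ u y = 0 := ortho d hu.deg hy (by
        rcases hi with rfl | rfl
        · norm_num
        · norm_num)
      rw [hXsk, e1, map_smul, smul_eq_mul, e2, neg d x u]
      ring
    have e1 : ψ w x = 0 := ortho d hDw hx (by
      intro h
      apply ha
      linear_combination h)
    have e2 : ψ w y = 0 := ortho d hDw hy (by
      intro h
      apply hb
      linear_combination h)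
    rw [e1, e2]
    by_cases hab : 1 + a + b = 0
    · by_cases hx0 : x = 0
      · rw [hx0]; simp
      by_cases hy0 : y = 0
      · rw [hy0]; simp
      exfalso
      rcases eig d.D3 hx hx0 with h1 | h1 | h1 <;> rcases eig d.D3 hy hy0 with h2 | h2 | h2 <;>
        rcases hi with rfl | rfl <;> subst h1 <;> subst h2 <;>
        first
          | (revert hab; norm_num; done)
          | (apply ha; norm_num; done)
          | (apply hb; norm_num; done)
    · rw [ortho d hXx hy hab]
      ring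
  have hXeq : X = dot ψ u w := by
    ext x
    rw [← sub_eq_zero]
    apply nd_eq d
    intro y
    rw [map_sub, LinearMap.sub_apply, sub_eq_zero]
    have hx := sum_apply D x
    have hy := sum_apply D y
    have h1 := apply_pP d.D3 x
    have h2 := apply_pZ d.D3 x
    have h3 := apply_pQ d.D3 x
    have k1 := apply_pP d.D3 y
    have k2 := apply_pZ d.D3 y
    have k3 := apply_pQ d.D3 y
    rw [hx, hy]
    simp only [map_add, LinearMap.add_apply]
    rw [key _ _ _ _ h1 k1, key _ _ _ _ h1 k2, key _ _ _ _ h1 k3, key _ _ _ _ h2 k1,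
      key _ _ _ _ h2 k2, key _ _ _ _ h2 k3, key _ _ _ _ h3 k1, key _ _ _ _ h3 k2,
      key _ _ _ _ h3 k3]
  refine ⟨w, ?_, hDw, hXeq ▸ hXg⟩
  rintro rfl
  apply hXv
  rw [hXeq, dot_apply]
  simp

end Pool.Agent.Helper29.MX
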