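import Pool.Agent.Helper29.MX.Hit
import Pool.Agent.Helper29.MX.Sp

/-!
# Simple eigenvectors of `γ` and elements of rank two
-/

namespace Pool.Agent.Helper29.MX

open LinearMap Pool.Agent.Helper66.OTR Polynomial

set_option linter.unusedSectionVars false

variable {K V : Type*} [Field K] [AddCommGroup V] [Module K V] [FiniteDimensional K V]

/-- the standing data -/
structure Dat (ψ : LinearMap.BilinForm K V) (g : Submodule K (Module.End K V))
    (D : Module.End K V) (γ : V ≃ₗ[K] V) (c : K) : Prop where
  nd : ψ.Nondegenerate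
  alt : ∀ x, ψ x x = 0
  closed : LieClosed g
  gsp : ∀ X ∈ g, ∃ c : K, ∀ x y, ψ (X x) y + ψ x (X y) = c * ψ x y
  ss : ∀ W : Submodule K V, Stab g W → ∃ W', Stab g W' ∧ IsCompl W W'
  Dg : D ∈ g
  D3 : D * D * D = D
  Dsk : Skew ψ D
  sim : ∀ x y, ψ (γ x) (γ y) = c * ψ x y
  ad : ∀ X ∈ g, γ.conj X ∈ g
  comm : ∀ x, γ (D x) = D (γ x)
  pres : ∀ W : Submodule K V, Stab g W → ∀ x ∈ W, γ x ∈ W

/-- `μ` is an eigenvalue of `γ` in degree `a` -/
def EV (D : Module.End K V) (γ : V ≃ₗ[K] V) (a μ : K) : Prop :=
  ∃ y, y ≠ 0 ∧ D y = a • y ∧ γ y = μ • y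

variable {ψ : LinearMap.BilinForm K V} {g : Submodule K (Module.End K V)}
variable {D : Module.End K V} {γ : V ≃ₗ[K] V} {c : K}

/-- the operator `γ` as an endomorphism -/
abbrev Gm (γ : V ≃ₗ[K] V) : Module.End K V := (γ : V →ₗ[K] V)

lemma exists_proj [CharZero K] (d : Dat ψ g D γ c) {a : K} (ha : a = 0 ∨ a = 1 ∨ a = -1) :
    ∃ P : Module.End K V, (∀ x, D (P x) = a • P x) ∧ (∀ x, D x = a • x → P x = x) ∧
      (∀ x, P (D x) = a • P x) ∧ (∀ x, P (γ x) = γ (P x)) ∧
      (∀ W : Submodule K V, Stab g W → ∀ x ∈ W, P x ∈ W) := by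
  rcases ha with rfl | rfl | rfl
  · refine ⟨pZ D, apply_pZ d.D3, ?_, ?_, ?_, ?_⟩
    · intro x hx
      simp [pZ, hx]
    · intro x
      have := congrArg (fun f => f x) (pZ_D d.D3)
      simpa using this
    · intro x
      simp [pZ, ← d.comm]
    · intro W hW x hx
      simp only [pZ, LinearMap.sub_apply, Module.End.one_apply, Module.End.mul_apply]
      exact W.sub_mem hx (hW D d.Dg _ (hW D d.Dg _ hx))
  · refine ⟨pP D, apply_pP d.D3, ?_, ?_, ?_, ?_⟩
    · intro x hx
      simp only [pP, LinearMap.smul_apply, LinearMap.add_apply, Module.End.mul_apply, hx, one_smul]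
      module
    · intro x
      have := congrArg (fun f => f x) (pP_D d.D3)
      simpa using this
    · intro x
      simp [pP, ← d.comm]
    · intro W hW x hx
      simp only [pP, LinearMap.smul_apply, LinearMap.add_apply, Module.End.mul_apply]
      exact W.smul_mem _ (W.add_mem (hW D d.Dg _ (hW D d.Dg _ hx)) (hW D d.Dg _ hx))
  · refine ⟨pQ D, apply_pQ d.D3, ?_, ?_, ?_, ?_⟩
    · intro x hx
      simp only [pQ, LinearMap.smul_apply, LinearMap.sub_apply, Module.End.mul_apply, hx, map_smul]
      module
    · intro x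
      have := congrArg (fun f => f x) (pQ_D d.D3)
      simpa using this
    · intro x
      simp [pQ, ← d.comm]
    · intro W hW x hx
      simp only [pQ, LinearMap.smul_apply, LinearMap.sub_apply, Module.End.mul_apply]
      exact W.smul_mem _ (W.sub_mem (hW D d.Dg _ (hW D d.Dg _ hx)) (hW D d.Dg _ hx))

/-- different degrees are orthogonal -/
lemma ortho (d : Dat ψ g D γ c) {a b : K} {x y : V} (hx : D x = a • x) (hy : D y = b • y)
    (hab : a + b ≠ 0) : ψ x y = 0 := by
  have h := d.Dsk x y
  rw [hx, hy, map_smul, map_smul, LinearMap.smul_apply, smul_eq_mul, smul_eq_mul] at h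
  have h2 : (a + b) * ψ x y = 0 := by linear_combination h
  exact (mul_eq_zero.1 h2).resolve_left hab

/-- generalised eigenvectors for `Ad γ` and `γ` -/
lemma gen_apply (γ : V ≃ₗ[K] V) (χ β : K) : ∀ N n m : ℕ, n + m = N → ∀ (X : Module.End K V) (x : V),
    (((γ.conj : Module.End K V →ₗ[K] Module.End K V) - χ • (1 : Module.End K (Module.End K V))) ^ n) X
      = 0 →
    ((Gm γ - β • (1 : Module.End K V)) ^ m) x = 0 →
    ((Gm γ - (χ * β) • (1 : Module.End K V)) ^ N) (X x) = 0 := by
  intro N
  induction N with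
  | zero =>
    intro n m hnm X x hX hx
    obtain ⟨rfl, rfl⟩ : n = 0 ∧ m = 0 := by omega
    rw [pow_zero, Module.End.one_apply] at hX
    rw [hX]; simp
  | succ N ih =>
    intro n m hnm X x hX hx
    rw [pow_succ, Module.End.mul_apply]
    have e : (Gm γ - (χ * β) • (1 : Module.End K V)) (X x) =
        (((γ.conj : Module.End K V →ₗ[K] Module.End K V) - χ • (1 : Module.End K (Module.End K V))) X)
          (γ x) + χ • X ((Gm γ - β • (1 : Module.End K V)) x) := by
      simp only [LinearMap.sub_apply, LinearMap.smul_apply, Module.End.one_apply,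
        LinearEquiv.coe_coe, LinearEquiv.conj_apply_apply, LinearEquiv.symm_apply_apply, map_sub,
        map_smul, smul_sub, smul_smul]
      abel
    rw [e, map_add, map_smul]
    have h1 : ((Gm γ - (χ * β) • (1 : Module.End K V)) ^ N)
        ((((γ.conj : Module.End K V →ₗ[K] Module.End K V) -
          χ • (1 : Module.End K (Module.End K V))) X) (γ x)) = 0 := by
      rcases n with _ | n
      · rw [pow_zero, Module.End.one_apply] at hX
        rw [hX]; simp
      · refine ih n m (by omega) _ _ ?_ ?_
        · rw [← Module.End.mul_apply, ← pow_succ]; exact hX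
        · have : (Gm γ - β • (1 : Module.End K V)) ^ m * Gm γ =
              Gm γ * (Gm γ - β • (1 : Module.End K V)) ^ m := by
            refine (Commute.pow_left ?_ m).eq
            exact (Commute.refl _).sub_left (Commute.smul_left (Commute.one_left _) β)
          have h2 := congrArg (fun f => f x) this
          simp only [Module.End.mul_apply, hx, map_zero] at h2
          exact h2
    have h2 : ((Gm γ - (χ * β) • (1 : Module.End K V)) ^ N)
        (X ((Gm γ - β • (1 : Module.End K V)) x)) = 0 := by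
      rcases m with _ | m
      · rw [pow_zero, Module.End.one_apply] at hx
        rw [hx]; simp
      · refine ih n m (by omega) _ _ hX ?_
        rw [← Module.End.mul_apply, ← pow_succ]; exact hx
    rw [h1, h2, smul_zero, add_zero]

/-- `D` commutes with polynomials in `γ` -/
lemma D_pow (d : Dat ψ g D γ c) (μ : K) (k : ℕ) (x : V) :
    D (((Gm γ - μ • (1 : Module.End K V)) ^ k) x) = ((Gm γ - μ • (1 : Module.End K V)) ^ k) (D x) := by
  have h : Commute D (Gm γ) := by
    ext x
    simp [d.comm]
  have h2 : Commute D ((Gm γ - μ • (1 : Module.End K V)) ^ k) :=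
    (h.sub_right (Commute.smul_right (Commute.one_right _) μ)).pow_right k
  exact congrArg (fun f => f x) h2.eq

/-- existence of eigenvectors -/
lemma exists_ev (d : Dat ψ g D γ c) {a μ : K} {x : V} (hx0 : x ≠ 0) (hx : D x = a • x) {n : ℕ}
    (hn : ((Gm γ - μ • (1 : Module.End K V)) ^ n) x = 0) : EV D γ a μ := by
  classical
  have hex : ∃ n, ((Gm γ - μ • (1 : Module.End K V)) ^ n) x = 0 := ⟨n, hn⟩
  obtain ⟨m, hm⟩ : ∃ m, Nat.find hex = m := ⟨_, rfl⟩
  have hspec := Nat.find_spec hex
  rw [hm] at hspec
  rcases m with _ | m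
  · rw [pow_zero, Module.End.one_apply] at hspec
    exact absurd hspec hx0
  · have hmin := Nat.find_min hex (m := m) (by omega)
    refine ⟨_, hmin, ?_, ?_⟩
    · rw [D_pow d, hx, map_smul]
    · rw [pow_succ', Module.End.mul_apply, LinearMap.sub_apply, sub_eq_zero] at hspec
      simpa using hspec

lemma nd_eq (d : Dat ψ g D γ c) {x : V} (h : ∀ y, ψ x y = 0) : x = 0 := by
  apply (LinearMap.BilinForm.nondegenerate_iff_ker_eq_bot.1 d.nd |> LinearMap.ker_eq_bot.1)
  ext y
  rw [h y, map_zero, LinearMap.zero_apply]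

lemma neg (d : Dat ψ g D γ c) (x y : V) : ψ x y = - ψ y x := by
  have h := d.alt (x + y)
  simp only [map_add, LinearMap.add_apply, d.alt] at h
  linear_combination h

lemma exists_rep (d : Dat ψ g D γ c) (f : V →ₗ[K] K) : ∃ z, ∀ x, ψ z x = f x := by
  obtain ⟨z, hz⟩ := (ψ.toDual d.nd).surjective f
  exact ⟨z, fun x => by rw [← hz, LinearMap.BilinForm.toDual_def]⟩

/-- eigenvalues of `γ` are nonzero -/
lemma EV.ne_zero {a μ : K} (h : EV D γ a μ) : μ ≠ 0 := by
  rintro rfl
  obtain ⟨y, hy, -, h2⟩ := h
  rw [zero_smul] at h2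
  exact hy (by simpa using h2)

/-- duality of the eigenvalues -/
lemma EV.dual [CharZero K] (d : Dat ψ g D γ c) {a μ : K} (ha : a = 0 ∨ a = 1 ∨ a = -1)
    (h : EV D γ a μ) : EV D γ (-a) (c / μ) := by
  have hμ := h.ne_zero
  obtain ⟨y, hy0, hDy, hγy⟩ := h
  have ha' : -a = 0 ∨ -a = 1 ∨ -a = -1 := by
    rcases ha with rfl | rfl | rfl
    · simp
    · simp
    · simp
  obtain ⟨P, p1, p2, p3, p4, -⟩ := exists_proj d ha'
  obtain ⟨x, hx⟩ : ∃ x, ψ y x ≠ 0 := by
    by_contra hcon
    push Not at hcon
    exact hy0 (nd_eq d hcon)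
  -- the operator `(γ - c / μ) P + (1 - P)`
  obtain ⟨F, hF⟩ : ∃ F : Module.End K V, F = (Gm γ - (c / μ) • 1) * P + (1 - P) := ⟨_, rfl⟩
  have hψ : ∀ x, D x = (-a) • x → ψ y (γ x) = c / μ * ψ y x := by
    intro x _
    have h1 := d.sim y x
    rw [hγy, map_smul, LinearMap.smul_apply, smul_eq_mul] at h1
    field_simp
    linear_combination h1
  have hns : ¬ Function.Surjective F := by
    intro hsurj
    obtain ⟨x', hx'⟩ := hsurj (P x)
    have e1 : P x' = x' - (F x' - ((Gm γ - (c / μ) • 1) (P x'))) := by
      rw [hF]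
      simp
    have e2 : P (F x') = F x' - (x' - P x') := by
      rw [hF]
      simp only [LinearMap.add_apply, LinearMap.sub_apply, Module.End.mul_apply,
        LinearMap.smul_apply, Module.End.one_apply, LinearEquiv.coe_coe, map_add, map_sub, map_smul,
        p4, p2 _ (p1 x')]
      abel
    have e3 : x' - P x' = 0 := by
      have h1 : P (F x') = F x' := by rw [hx', p2 _ (p1 x)]
      rw [h1] at e2
      have := sub_eq_self.1 e2.symm
      exact this
    have e4 : P x = (Gm γ - (c / μ) • 1) (P x') := by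
      rw [← hx', hF]
      simp only [LinearMap.add_apply, LinearMap.sub_apply, Module.End.mul_apply,
        LinearMap.smul_apply, Module.End.one_apply, LinearEquiv.coe_coe]
      rw [e3, add_zero]
    apply hx
    have e5 : ψ y x = ψ y (P x) := by
      have h1 := sum_apply D x
      have hdec : ψ y (x - P x) = 0 := by
        obtain ⟨P0, q1, q2, -, -, -⟩ := exists_proj d (a := 0) (Or.inl rfl)
        obtain ⟨P1, r1, r2, -, -, -⟩ := exists_proj d (a := 1) (Or.inr (Or.inl rfl))
        have k1 : P (pP D x) + P (pZ D x) + P (pQ D x) = P x := by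
          rw [← map_add, ← map_add, ← h1]
        have kk : ∀ (b : K) (z : V), D z = b • z → ψ y (z - P z) = 0 := by
          intro b z hz
          by_cases hab : b = -a
          · rw [p2 z (by rw [hz, hab]), sub_self, map_zero]
          · have hPz : P z = 0 := by
              have k2 := p3 z
              rw [hz, map_smul, ← sub_eq_zero, ← sub_smul] at k2
              exact (smul_eq_zero.1 k2).resolve_left (sub_ne_zero.2 hab)
            rw [hPz, sub_zero]
            refine ortho d hDy hz ?_
            intro h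
            apply hab
            linear_combination h
        have k3 : x - P x = (pP D x - P (pP D x)) + (pZ D x - P (pZ D x)) +
            (pQ D x - P (pQ D x)) := by
          rw [← k1]
          nth_rewrite 1 [h1]
          abel
        rw [k3, map_add, map_add, kk _ _ (apply_pP d.D3 x), kk _ _ (apply_pZ d.D3 x),
          kk _ _ (apply_pQ d.D3 x)]
        simp
      rw [map_sub, sub_eq_zero] at hdec
      exact hdec
    rw [e5, e4, LinearMap.sub_apply, LinearMap.smul_apply, Module.End.one_apply, map_sub, map_smul,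
      LinearEquiv.coe_coe, hψ _ (p1 x'), smul_eq_mul, sub_self]
  have hni : ¬ Function.Injective F := fun h => hns (LinearMap.injective_iff_surjective.1 h)
  obtain ⟨z, hz, hz0⟩ : ∃ z, F z = 0 ∧ z ≠ 0 := by
    by_contra hcon
    push Not at hcon
    exact hni ((injective_iff_map_eq_zero F).2 hcon)
  have hPz : P z = z := by
    have e2 : P (F z) = F z - (z - P z) := by
      rw [hF]
      simp only [LinearMap.add_apply, LinearMap.sub_apply, Module.End.mul_apply,
        LinearMap.smul_apply, Module.End.one_apply, LinearEquiv.coe_coe, map_add, map_sub, map_smul,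
        p4, p2 _ (p1 z)]
      abel
    rw [hz, map_zero, zero_sub, eq_comm, neg_eq_zero, sub_eq_zero] at e2
    exact e2.symm
  refine ⟨z, hz0, by rw [← hPz]; exact p1 z, ?_⟩
  rw [hF] at hz
  simp only [LinearMap.add_apply, LinearMap.sub_apply, Module.End.mul_apply, hPz,
    LinearMap.smul_apply, Module.End.one_apply, LinearEquiv.coe_coe, sub_self, add_zero] at hz
  exact sub_eq_zero.1 hz

end Pool.Agent.Helper29.MX
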