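import Pool.Agent.Helper29.MX.Basic

/-!
# Elements of degree one which do not kill a given vector
-/

namespace Pool.Agent.Helper29.MX

open LinearMap Pool.Agent.Helper66.OTR

set_option linter.unusedSectionVars false

variable {K V : Type*} [Field K] [AddCommGroup V] [Module K V]

/-- `W` is stable under `g` -/
def Stab (g : Submodule K (Module.End K V)) (W : Submodule K V) : Prop :=
  ∀ X ∈ g, ∀ w ∈ W, X w ∈ W

variable [CharZero K] {g : Submodule K (Module.End K V)} {D : Module.End K V}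

omit [CharZero K] in
/-- degrees outside `{0, 1, -1}` do not occur -/
lemma kill (hD3 : D * D * D = D) {X : Module.End K V} {k a : K} (hX : Hg D k X) {x : V}
    (hx : D x = a • x) (h0 : k + a ≠ 0) (h1 : k + a ≠ 1) (h2 : k + a ≠ -1) : X x = 0 := by
  by_contra hne
  rcases eig hD3 (hX.apply hx) hne with h | h | h
  · exact h0 h
  · exact h1 h
  · exact h2 h

/-- vectors of degree `a` in `U` killed by the elements of degree one -/
def low (g : Submodule K (Module.End K V)) (D : Module.End K V) (U : Submodule K V) (a : K) :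
    Submodule K V where
  carrier := {x | x ∈ U ∧ D x = a • x ∧ ∀ X ∈ g, Hg D 1 X → X x = 0}
  zero_mem' := ⟨U.zero_mem, by simp, by simp⟩
  add_mem' := by
    rintro x y ⟨h1, h2, h3⟩ ⟨h1', h2', h3'⟩
    refine ⟨U.add_mem h1 h1', by rw [map_add, h2, h2', smul_add], fun X hX hg => ?_⟩
    rw [map_add, h3 X hX hg, h3' X hX hg, add_zero]
  smul_mem' := by
    rintro c x ⟨h1, h2, h3⟩
    refine ⟨U.smul_mem c h1, by rw [map_smul, h2, smul_comm], fun X hX hg => ?_⟩
    rw [map_smul, h3 X hX hg, smul_zero]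

/-- the span of the vectors `Y x`, `Y ∈ g` of degree `k`, `x ∈ R` -/
def push (g : Submodule K (Module.End K V)) (D : Module.End K V) (R : Submodule K V) (k : K) :
    Submodule K V :=
  Submodule.span K {y | ∃ Y ∈ g, Hg D k Y ∧ ∃ x ∈ R, Y x = y}

omit [CharZero K] in
lemma mem_push {R : Submodule K V} {k : K} {Y : Module.End K V} (hY : Y ∈ g) (h : Hg D k Y)
    {x : V} (hx : x ∈ R) : Y x ∈ push g D R k :=
  Submodule.subset_span ⟨Y, hY, h, x, hx, rfl⟩

omit [CharZero K] in
lemma comm_apply (X Y : Module.End K V) (x : V) : X (Y x) = (X * Y - Y * X) x + Y (X x) := by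
  simp

omit [CharZero K] in
/-- degree zero elements preserve `low` -/
lemma low_zero (hg : LieClosed g) {U : Submodule K V} (hU : Stab g U) {a : K} {C : Module.End K V}
    (hC : C ∈ g) (h0 : Hg D 0 C) {x : V} (hx : x ∈ low g D U a) : C x ∈ low g D U a := by
  obtain ⟨h1, h2, h3⟩ := hx
  refine ⟨hU C hC x h1, ?_, fun X hX hX1 => ?_⟩
  · rw [h0.apply h2, zero_add]
  · rw [comm_apply, h3 X hX hX1, map_zero, add_zero]
    exact h3 _ (hg _ hX _ hC) ((hX1.comm h0).congr (add_zero _))

/-- the stable subspace for `a = 0` -/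
lemma stab_zero (hg : LieClosed g) (hDg : D ∈ g) (hD3 : D * D * D = D) {U : Submodule K V}
    (hU : Stab g U) : Stab g (low g D U 0 ⊔ push g D (low g D U 0) (-1)) := by
  obtain ⟨R, hR⟩ : ∃ R, R = low g D U 0 := ⟨_, rfl⟩
  rw [← hR]
  have hlow : ∀ X ∈ g, ∀ x ∈ R, X x ∈ R ⊔ push g D R (-1) := by
    intro X hX x hx
    obtain ⟨A, hA, B, hB, C, hC, E, hE, F, hF, a2, a1, a0, b1, b2, rfl⟩ :=
      exists_comps hg hDg hD3 hX
    have hx' := hx
    rw [hR] at hx'
    have e1 : A x = 0 := kill hD3 a2 hx'.2.1 (by norm_num) (by norm_num) (by norm_num)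
    have e2 : B x = 0 := hx'.2.2 B hB a1
    have e3 : F x = 0 := kill hD3 b2 hx'.2.1 (by norm_num) (by norm_num) (by norm_num)
    simp only [LinearMap.add_apply, e1, e2, e3, zero_add, add_zero]
    refine Submodule.add_mem_sup ?_ (mem_push hE b1 hx)
    rw [hR] at hx ⊢
    exact low_zero hg hU hC a0 hx
  have hpush : ∀ X ∈ g, push g D R (-1) ≤ (R ⊔ push g D R (-1)).comap X := by
    intro X hX
    refine Submodule.span_le.2 ?_
    rintro y ⟨Y, hY, hY1, x, hx, rfl⟩
    have hx' := hx
    rw [hR] at hx'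
    obtain ⟨A, hA, B, hB, C, hC, E, hE, F, hF, a2, a1, a0, b1, b2, rfl⟩ :=
      exists_comps hg hDg hD3 hX
    have hYx : D (Y x) = (-1 : K) • Y x := by
      rw [hY1.apply hx'.2.1]; norm_num
    have e1 : A (Y x) = 0 := by
      rw [comm_apply, kill hD3 a2 hx'.2.1 (by norm_num) (by norm_num) (by norm_num), map_zero,
        add_zero]
      exact hx'.2.2 _ (hg _ hA _ hY) ((a2.comm hY1).congr (by norm_num))
    have e2 : B (Y x) ∈ R := by
      rw [comm_apply, hx'.2.2 B hB a1, map_zero, add_zero, hR]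
      rw [hR] at hx
      exact low_zero hg hU (hg _ hB _ hY) ((a1.comm hY1).congr (by norm_num)) hx
    have e3 : C (Y x) ∈ push g D R (-1) := by
      rw [comm_apply]
      refine Submodule.add_mem _ (mem_push (hg _ hC _ hY) ((a0.comm hY1).congr (by norm_num)) hx)
        (mem_push hY hY1 ?_)
      rw [hR] at hx ⊢
      exact low_zero hg hU hC a0 hx
    have e4 : E (Y x) = 0 := kill hD3 b1 hYx (by norm_num) (by norm_num) (by norm_num)
    have e5 : F (Y x) = 0 := kill hD3 b2 hYx (by norm_num) (by norm_num) (by norm_num)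
    show (A + B + C + E + F) (Y x) ∈ R ⊔ push g D R (-1)
    simp only [LinearMap.add_apply, e1, e4, e5, zero_add, add_zero]
    exact Submodule.add_mem_sup e2 e3
  intro X hX w hw
  obtain ⟨r, hr, p, hp, rfl⟩ := Submodule.mem_sup.1 hw
  rw [map_add]
  exact Submodule.add_mem _ (hlow X hX r hr) (hpush X hX hp)

/-- the stable subspace for `a = -1` -/
lemma stab_one (hg : LieClosed g) (hDg : D ∈ g) (hD3 : D * D * D = D) {U : Submodule K V}
    (hU : Stab g U) : Stab g (low g D U (-1) ⊔ push g D (low g D U (-1)) 2) := by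
  obtain ⟨R, hR⟩ : ∃ R, R = low g D U (-1) := ⟨_, rfl⟩
  rw [← hR]
  have hlow : ∀ X ∈ g, ∀ x ∈ R, X x ∈ R ⊔ push g D R 2 := by
    intro X hX x hx
    obtain ⟨A, hA, B, hB, C, hC, E, hE, F, hF, a2, a1, a0, b1, b2, rfl⟩ :=
      exists_comps hg hDg hD3 hX
    have hx' := hx
    rw [hR] at hx'
    have e1 : E x = 0 := kill hD3 b1 hx'.2.1 (by norm_num) (by norm_num) (by norm_num)
    have e2 : B x = 0 := hx'.2.2 B hB a1
    have e3 : F x = 0 := kill hD3 b2 hx'.2.1 (by norm_num) (by norm_num) (by norm_num)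
    simp only [LinearMap.add_apply, e1, e2, e3, add_zero]
    rw [add_comm]
    refine Submodule.add_mem_sup ?_ (mem_push hA a2 hx)
    rw [hR] at hx ⊢
    exact low_zero hg hU hC a0 hx
  have hpush : ∀ X ∈ g, push g D R 2 ≤ (R ⊔ push g D R 2).comap X := by
    intro X hX
    refine Submodule.span_le.2 ?_
    rintro y ⟨Y, hY, hY1, x, hx, rfl⟩
    have hx' := hx
    rw [hR] at hx'
    obtain ⟨A, hA, B, hB, C, hC, E, hE, F, hF, a2, a1, a0, b1, b2, rfl⟩ :=
      exists_comps hg hDg hD3 hX
    have hYx : D (Y x) = (1 : K) • Y x := by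
      rw [hY1.apply hx'.2.1]; norm_num
    have e1 : A (Y x) = 0 := kill hD3 a2 hYx (by norm_num) (by norm_num) (by norm_num)
    have e2 : B (Y x) = 0 := kill hD3 a1 hYx (by norm_num) (by norm_num) (by norm_num)
    have e3 : C (Y x) ∈ push g D R 2 := by
      rw [comm_apply]
      refine Submodule.add_mem _ (mem_push (hg _ hC _ hY) ((a0.comm hY1).congr (by norm_num)) hx)
        (mem_push hY hY1 ?_)
      rw [hR] at hx ⊢
      exact low_zero hg hU hC a0 hx
    have e4 : E (Y x) = 0 := by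
      rw [comm_apply, kill hD3 b1 hx'.2.1 (by norm_num) (by norm_num) (by norm_num), map_zero,
        add_zero]
      exact hx'.2.2 _ (hg _ hE _ hY) ((b1.comm hY1).congr (by norm_num))
    have e5 : F (Y x) ∈ R := by
      rw [comm_apply, kill hD3 b2 hx'.2.1 (by norm_num) (by norm_num) (by norm_num), map_zero,
        add_zero, hR]
      rw [hR] at hx
      exact low_zero hg hU (hg _ hF _ hY) ((b2.comm hY1).congr (by norm_num)) hx
    show (A + B + C + E + F) (Y x) ∈ R ⊔ push g D R 2
    simp only [LinearMap.add_apply, e1, e2, e4, zero_add, add_zero]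
    rw [add_comm]
    exact Submodule.add_mem_sup e5 e3
  intro X hX w hw
  obtain ⟨r, hr, p, hp, rfl⟩ := Submodule.mem_sup.1 hw
  rw [map_add]
  exact Submodule.add_mem _ (hlow X hX r hr) (hpush X hX hp)

/-- **Hit.** A nonzero vector of degree `0` or `-1` is not killed by all elements of degree one. -/
theorem hit (hg : LieClosed g) (hDg : D ∈ g) (hD3 : D * D * D = D) {U : Submodule K V}
    (hU : Stab g U)
    (H : ∀ W ≤ U, Stab g W → W ≠ ⊥ → (∃ x ∈ W, x ≠ 0 ∧ D x = (1 : K) • x) ∧
      (∃ x ∈ W, x ≠ 0 ∧ D x = (0 : K) • x))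
    {a : K} (ha : a = 0 ∨ a = -1) {z : V} (hz : z ∈ U) (hDz : D z = a • z) (hz0 : z ≠ 0) :
    ∃ X ∈ g, Hg D 1 X ∧ X z ≠ 0 := by
  by_contra hcon
  push Not at hcon
  have hpl : ∀ (a k : K), push g D (low g D U a) k ≤ U := by
    intro a k
    refine Submodule.span_le.2 ?_
    rintro y ⟨Y, hY, -, x, hx, rfl⟩
    exact hU Y hY x hx.1
  have hdeg : ∀ (a k : K), push g D (low g D U a) k ≤ LinearMap.ker (D - (k + a) • 1) := by
    intro a k
    refine Submodule.span_le.2 ?_
    rintro y ⟨Y, hY, h1, x, hx, rfl⟩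
    rw [SetLike.mem_coe, LinearMap.mem_ker, LinearMap.sub_apply, h1.apply hx.2.1]
    simp
  rcases ha with rfl | rfl
  · have hzR : z ∈ low g D U 0 := ⟨hz, hDz, hcon⟩
    obtain ⟨⟨x, hx, hx0, hDx⟩, -⟩ := H (low g D U 0 ⊔ push g D (low g D U 0) (-1))
      (sup_le (fun x hx => hx.1) (hpl _ _)) (stab_zero hg hDg hD3 hU) (by
        intro h
        apply hz0
        rw [← Submodule.mem_bot K, ← h]
        exact Submodule.mem_sup_left hzR)
    obtain ⟨r, hr, p, hp, rfl⟩ := Submodule.mem_sup.1 hx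
    have h1 : D p = - p := by
      have := hdeg _ _ hp
      rw [LinearMap.mem_ker, LinearMap.sub_apply, sub_eq_zero] at this
      rw [this]; simp
    have h2 := hr.2.1
    rw [zero_smul] at h2
    rw [one_smul, map_add, h1, h2, zero_add] at hDx
    have h3 := congrArg D hDx
    rw [map_neg, map_add, h1, h2, neg_neg, zero_add] at h3
    have h4 : (2 : K) • p = 0 := by
      rw [two_smul]; nth_rw 1 [h3]; rw [neg_add_cancel]
    have h5 : p = 0 := (smul_eq_zero.1 h4).resolve_left two_ne_zero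
    rw [h5, neg_zero, add_zero] at hDx
    exact hx0 (by rw [h5, add_zero, ← hDx])
  · have hzR : z ∈ low g D U (-1) := ⟨hz, hDz, hcon⟩
    obtain ⟨-, x, hx, hx0, hDx⟩ := H (low g D U (-1) ⊔ push g D (low g D U (-1)) 2)
      (sup_le (fun x hx => hx.1) (hpl _ _)) (stab_one hg hDg hD3 hU) (by
        intro h
        apply hz0
        rw [← Submodule.mem_bot K, ← h]
        exact Submodule.mem_sup_left hzR)
    obtain ⟨r, hr, p, hp, rfl⟩ := Submodule.mem_sup.1 hx
    have h1 : D p = p := by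
      have := hdeg _ _ hp
      rw [LinearMap.mem_ker, LinearMap.sub_apply, sub_eq_zero] at this
      have e : (2 : K) + -1 = 1 := by norm_num
      rw [this, e]; simp
    have h2 := hr.2.1
    rw [neg_one_smul] at h2
    rw [zero_smul, map_add, h1, h2] at hDx
    have h3 := congrArg D hDx
    rw [map_add, map_neg, h1, h2, neg_neg, map_zero] at h3
    exact hx0 h3

end Pool.Agent.Helper29.MX
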