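import Pool.Agent.Helper29.MX.Block

/-!
# The main theorem
-/

namespace Pool.Agent.Helper29.MX

open LinearMap Pool.Agent.Helper66.OTR

set_option linter.unusedSectionVars false

variable {K V : Type*} [Field K] [AddCommGroup V] [Module K V] [FiniteDimensional K V]

/-- the relation hypothesis -/
def Rel (D : Module.End K V) (γ : V ≃ₗ[K] V) (i α : K) : Prop :=
  ∀ α' β β' : K, α' ≠ α → EV D γ i α' → EV D γ (i - 1) β → EV D γ (i - 1) β' →
    α * β' ≠ α' * β

/-- the hypothesis on the stable subspaces of `B` -/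
def Hyp (g : Submodule K (Module.End K V)) (D : Module.End K V) (γ : V ≃ₗ[K] V)
    (B : Submodule K V) : Prop :=
  ∀ W ≤ B, Stab g W → W ≠ ⊥ →
    (∃ x ∈ W, x ≠ 0 ∧ D x = (1 : K) • x) ∧ (∃ x ∈ W, x ≠ 0 ∧ D x = (0 : K) • x) ∧
    (∃ x ∈ W, x ≠ 0 ∧ D x = (-1 : K) • x) ∧
    ∃ i α : K, (i = 0 ∨ i = 1) ∧ ∃ u ∈ W, Simp D γ i α u ∧ Rel D γ i α

variable {ψ : LinearMap.BilinForm K V} {g : Submodule K (Module.End K V)}
variable {D : Module.End K V} {γ : V ≃ₗ[K] V} {c : K}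

/-- `-D` in place of `D` -/
lemma Dat.negD (d : Dat ψ g D γ c) : Dat ψ g (-D) γ c where
  nd := d.nd
  alt := d.alt
  closed := d.closed
  gsp := d.gsp
  ss := d.ss
  Dg := g.neg_mem d.Dg
  D3 := by
    rw [neg_mul_neg, mul_neg, d.D3]
  Dsk := by
    intro x y
    rw [LinearMap.neg_apply, LinearMap.neg_apply, map_neg, map_neg, LinearMap.neg_apply, d.Dsk]
  sim := d.sim
  ad := d.ad
  comm := by
    intro x
    rw [LinearMap.neg_apply, LinearMap.neg_apply, map_neg, d.comm]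
  pres := d.pres

lemma neg_eig {D : Module.End K V} {a : K} {x : V} (h : D x = a • x) : (-D) x = (-a) • x := by
  rw [LinearMap.neg_apply, h, neg_smul]

lemma mem_of_dot (d : Dat ψ g D γ c) {W' : Submodule K V} (hW' : Stab g W') {u w : V} {a i : K}
    (hu : D u = i • u) (hw : D w = a • w) (hai : a ≠ i) (hx : ∃ x ∈ W', ψ u x ≠ 0)
    (h : dot ψ u w ∈ g) : w ∈ W' := by
  obtain ⟨x, hx, hne⟩ := hx
  have h1 := hW' _ h x hx
  have h2 := W'.sub_mem (hW' D d.Dg _ h1) (W'.smul_mem i h1)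
  have h3 : D (dot ψ u w x) - i • dot ψ u w x = (ψ u x * (a - i)) • w := by
    rw [dot_apply, map_add, map_smul, map_smul, hu, hw]
    module
  rw [h3] at h2
  have h4 := W'.smul_mem (ψ u x * (a - i))⁻¹ h2
  rwa [smul_smul, inv_mul_cancel₀ (mul_ne_zero hne (sub_ne_zero.2 hai)), one_smul] at h4

/-- two elements of rank two -/
theorem two [CharZero K] [IsAlgClosed K] (d : Dat ψ g D γ c) {B : Submodule K V} (hB : Stab g B)
    (hBB : ∀ x ∈ B, x ∈ ψ.orthogonal B → x = 0) (H : Hyp g D γ B) {i α : K} (hi : i = 0 ∨ i = 1)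
    {u : V} (hu : Simp D γ i α u) (huB : u ∈ B) (hrel : Rel D γ i α) {W' : Submodule K V}
    (hW' : Stab g W') (hW'B : W' ≤ B) (hx : ∃ x ∈ W', ψ u x ≠ 0) :
    ∃ w ∈ W', ∃ w₂ ∈ W', w ≠ 0 ∧ (∀ t : K, w₂ ≠ t • w) ∧ ψ w u = 0 ∧ ψ w₂ u = 0 ∧
      dot ψ u w ∈ g ∧ dot ψ u w₂ ∈ g := by
  have H1 : ∀ W ≤ B, Stab g W → W ≠ ⊥ → (∃ x ∈ W, x ≠ 0 ∧ D x = (1 : K) • x) ∧
      (∃ x ∈ W, x ≠ 0 ∧ D x = (0 : K) • x) := fun W h1 h2 h3 =>
    ⟨(H W h1 h2 h3).1, (H W h1 h2 h3).2.1⟩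
  obtain ⟨w, hw0, hDw, hdw⟩ := exists_dot d hi hB hBB H1 hu huB hrel
  have hne : 1 - i ≠ i := by
    rcases hi with rfl | rfl
    · norm_num
    · norm_num
  have hwW : w ∈ W' := mem_of_dot d hW' hu.deg hDw hne hx hdw
  have hwu : ψ w u = 0 := ortho d hDw hu.deg (by rw [sub_add_cancel]; exact one_ne_zero)
  refine ⟨w, hwW, ?_⟩
  rcases hi with rfl | rfl
  · -- use `-D`
    have hu' : Simp (-D) γ 0 α u := by
      refine ⟨hu.ne, by rw [LinearMap.neg_apply, hu.deg]; simp, hu.ev, fun x n h1 h2 => ?_⟩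
      refine hu.simple x n ?_ h2
      rw [LinearMap.neg_apply, zero_smul, neg_eq_zero] at h1
      rw [h1, zero_smul]
    have hrel' : Rel (-D) γ 0 α := by
      rintro α' β β' hne ⟨x, hx0, hx1, hx2⟩ ⟨y, hy0, hy1, hy2⟩ ⟨z, hz0, hz1, hz2⟩ heq
      have e1 : EV D γ 0 α' := by
        refine ⟨x, hx0, ?_, hx2⟩
        rw [LinearMap.neg_apply, zero_smul, neg_eq_zero] at hx1
        rw [hx1, zero_smul]
      have e2 : EV D γ 1 β := by
        refine ⟨y, hy0, ?_, hy2⟩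
        rw [LinearMap.neg_apply, zero_sub, neg_smul, neg_inj] at hy1
        exact hy1
      have e3 : EV D γ 1 β' := by
        refine ⟨z, hz0, ?_, hz2⟩
        rw [LinearMap.neg_apply, zero_sub, neg_smul, neg_inj] at hz1
        exact hz1
      have f2 := EV.dual d (Or.inr (Or.inl rfl)) e2
      have f3 := EV.dual d (Or.inr (Or.inl rfl)) e3
      have h0 : (0 : K) - 1 = -1 := by norm_num
      have hβ := e2.ne_zero
      have hβ' := e3.ne_zero
      refine hrel α' (c / β') (c / β) hne e1 (by rw [h0]; exact f3) (by rw [h0]; exact f2) ?_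
      field_simp
      linear_combination c * heq
    obtain ⟨w₂, hw20, hDw2, hdw2⟩ := exists_dot d.negD (Or.inl rfl) hB hBB (fun W h1 h2 h3 => by
      obtain ⟨-, ⟨x, hx, hx0, hx1⟩, ⟨y, hy, hy0, hy1⟩, -⟩ := H W h1 h2 h3
      refine ⟨⟨y, hy, hy0, ?_⟩, ⟨x, hx, hx0, ?_⟩⟩
      · rw [neg_eig hy1, neg_neg]
      · rw [neg_eig hx1, neg_zero]) hu' huB hrel'
    have hDw2' : D w₂ = (-1 : K) • w₂ := by
      rw [LinearMap.neg_apply, sub_zero] at hDw2
      rw [neg_smul, ← hDw2, neg_neg]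
    have hw2W : w₂ ∈ W' := mem_of_dot d hW' hu.deg hDw2' (by norm_num) hx hdw2
    refine ⟨w₂, hw2W, hw0, ?_, hwu, ortho d hDw2' hu.deg (by norm_num), hdw, hdw2⟩
    rintro t rfl
    rw [map_smul, hDw] at hDw2'
    have h1 : (2 : K) • (t • w) = 0 := by
      have h2 : t • ((1 - 0 : K) • w) - (-1 : K) • t • w = 0 := sub_eq_zero.2 hDw2'
      rw [← h2]
      module
    exact hw20 ((smul_eq_zero.1 h1).resolve_left two_ne_zero)
  · -- use an element of degree one
    have hDw' : D w = (0 : K) • w := by rw [hDw, sub_self]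
    obtain ⟨Z, hZ, hZ1, hZw⟩ := hit d.closed d.Dg d.D3 hB H1 (Or.inl rfl) (hW'B hwW) hDw' hw0
    have hDZ : D (Z w) = (1 : K) • Z w := by rw [hZ1.apply hDw', add_zero]
    have hZsk : Skew ψ Z := by
      have h1 : Z = D * Z - Z * D := by
        have := hZ1
        unfold Hg at this
        rw [this, one_smul]
      intro x y
      obtain ⟨m, hm⟩ := d.gsp Z hZ
      have e1 := hm (D x) y
      have e2 := hm x (D y)
      have e3 := d.Dsk (Z x) y
      have e4 := d.Dsk x (Z y)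
      have e5 := d.Dsk x y
      have f1 : ψ (Z x) y = ψ (D (Z x)) y - ψ (Z (D x)) y := by
        conv_lhs => rw [h1]
        rw [LinearMap.sub_apply, map_sub, LinearMap.sub_apply, Module.End.mul_apply,
          Module.End.mul_apply]
      have f2 : ψ x (Z y) = ψ x (D (Z y)) - ψ x (Z (D y)) := by
        conv_lhs => rw [h1]
        rw [LinearMap.sub_apply, map_sub, Module.End.mul_apply, Module.End.mul_apply]
      rw [f1, f2]
      linear_combination e3 - e1 - e2 - m * e5 + e4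
    have hZu : Z u = 0 := by
      refine kill d.D3 hZ1 hu.deg ?_ ?_ ?_
      · norm_num
      · norm_num
      · norm_num
    refine ⟨Z w, hW' Z hZ w hwW, hw0, ?_, hwu, ortho d hDZ hu.deg (by norm_num), hdw, ?_⟩
    · intro t ht
      have h1 := congrArg D ht
      rw [hDZ, map_smul, hDw', zero_smul, smul_zero, one_smul] at h1
      exact hZw h1
    · have h1 := d.closed _ hZ _ hdw
      rw [comm_dot hZsk, hZu] at h1
      have h2 : dot ψ 0 w = 0 := by
        ext x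
        simp [dot_apply]
      rwa [h2, zero_add] at h1

/-- minimal stable subspaces -/
lemma exists_irr {B : Submodule K V} : ∀ n : ℕ, ∀ U ≤ B, Stab g U → U ≠ ⊥ →
    Module.finrank K U ≤ n → ∃ W ≤ B, Stab g W ∧ IrrW g W := by
  intro n
  induction n with
  | zero =>
    intro U _ _ hU0 hn
    exact absurd (Submodule.finrank_eq_zero.1 (Nat.le_zero.1 hn)) hU0
  | succ n ih =>
    intro U hUB hU hU0 hn
    by_cases h : IrrW g U
    · exact ⟨U, hUB, hU, h⟩
    · unfold IrrW at h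
      push Not at h
      obtain ⟨U', hU'U, hU', h1, h2⟩ := h hU0
      have := Submodule.finrank_lt_finrank_of_lt (lt_of_le_of_ne hU'U h2)
      exact ih U' (hU'U.trans hUB) hU' h1 (by omega)

lemma sup_perp (d : Dat ψ g D γ c) {B : Submodule K V}
    (hBB : ∀ x ∈ B, x ∈ ψ.orthogonal B → x = 0) : B ⊔ ψ.orthogonal B = ⊤ := by
  have h : Disjoint B (ψ.orthogonal B) := by
    rw [Submodule.disjoint_def]
    exact hBB
  exact ((LinearMap.BilinForm.isCompl_orthogonal_iff_disjoint (isRefl d)).2 h).sup_eq_top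

lemma Stab.inf {U W : Submodule K V} (hU : Stab g U) (hW : Stab g W) : Stab g (U ⊓ W) :=
  fun X hX x hx => ⟨hU X hX x hx.1, hW X hX x hx.2⟩

lemma Stab.sup {U W : Submodule K V} (hU : Stab g U) (hW : Stab g W) : Stab g (U ⊔ W) := by
  intro T hT x hx
  obtain ⟨a, ha, b, hb, rfl⟩ := Submodule.mem_sup.1 hx
  rw [map_add]
  exact Submodule.add_mem_sup (hU T hT a ha) (hW T hT b hb)

/-- operators which commute with the endomorphisms of the representation preserve the stable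
subspaces -/
lemma comm_stab (d : Dat ψ g D γ c) {X : Module.End K V}
    (hX : ∀ T : Module.End K V, (∀ Y ∈ g, T * Y = Y * T) → X * T = T * X) {W : Submodule K V}
    (hW : Stab g W) : ∀ x ∈ W, X x ∈ W := by
  obtain ⟨W', hW', hc⟩ := d.ss W hW
  obtain ⟨T, hT⟩ : ∃ T : Module.End K V, T = W.subtype ∘ₗ (W.projectionOnto W' hc) :=
    ⟨_, rfl⟩
  have hT1 : ∀ x ∈ W, T x = x := by
    intro x hx
    rw [hT]
    have := Submodule.projectionOnto_apply_left hc ⟨x, hx⟩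
    simp [this]
  have hT2 : ∀ x ∈ W', T x = 0 := by
    intro x hx
    rw [hT]
    have := (Submodule.projectionOnto_apply_eq_zero_iff hc).2 hx
    simp [this]
  have hT3 : ∀ x, T x ∈ W := by
    intro x
    rw [hT]
    exact Submodule.coe_mem _
  have h1 : X * T = T * X := by
    refine hX T fun Y hY => ?_
    ext x
    have hx : x ∈ W ⊔ W' := by rw [hc.sup_eq_top]; trivial
    obtain ⟨a, ha, b, hb, rfl⟩ := Submodule.mem_sup.1 hx
    rw [Module.End.mul_apply, Module.End.mul_apply, map_add, map_add, map_add, hT1 a ha, hT2 b hb,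
      hT1 _ (hW Y hY a ha), hT2 _ (hW' Y hY b hb), add_zero, add_zero]
  intro x hx
  have h2 := congrArg (fun f => f x) h1
  simp only [Module.End.mul_apply, hT1 x hx] at h2
  rw [h2]
  exact hT3 _

/-- one block -/
theorem block [CharZero K] [IsAlgClosed K] (d : Dat ψ g D γ c) {X Y : Module.End K V}
    (hX : Skew ψ X) (hY : Skew ψ Y)
    (hXT : ∀ T : Module.End K V, (∀ Y ∈ g, T * Y = Y * T) → X * T = T * X)
    (hYT : ∀ T : Module.End K V, (∀ Y ∈ g, T * Y = Y * T) → Y * T = T * Y)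
    {B : Submodule K V} (hB : Stab g B) (hBB : ∀ x ∈ B, x ∈ ψ.orthogonal B → x = 0)
    (H : Hyp g D γ B) (hB0 : B ≠ ⊥) :
    ∃ B₁ ≤ B, Stab g B₁ ∧ B₁ ≠ ⊥ ∧ (∀ x ∈ B₁, x ∈ ψ.orthogonal B₁ → x = 0) ∧
      ∃ Z ∈ g, (∀ x ∈ B₁, Z x = (X * Y - Y * X) x) ∧ ∀ x ∈ ψ.orthogonal B₁, Z x = 0 := by
  obtain ⟨W, hWB, hW, hirr⟩ := exists_irr _ B le_rfl hB hB0 le_rfl
  obtain ⟨-, -, -, i, α, hi, u, huW, hu, hrel⟩ := H W hWB hW hirr.1
  have H1 : ∀ W ≤ B, Stab g W → W ≠ ⊥ → (∃ x ∈ W, x ≠ 0 ∧ D x = (1 : K) • x) ∧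
      (∃ x ∈ W, x ≠ 0 ∧ D x = (0 : K) • x) := fun W h1 h2 h3 =>
    ⟨(H W h1 h2 h3).1, (H W h1 h2 h3).2.1⟩
  have hM := stab_perp d hW
  rcases hirr.2 _ inf_le_left (hW.inf hM) with h0 | h0
  · -- not isotropic
    have hWW : ∀ x ∈ W, x ∈ ψ.orthogonal W → x = 0 := by
      intro x h1 h2
      have : x ∈ W ⊓ ψ.orthogonal W := ⟨h1, h2⟩
      rw [h0] at this
      exact (Submodule.mem_bot K).1 this
    obtain ⟨w, hw0, hDw, hdw⟩ := exists_dot d hi hB hBB H1 hu (hWB huW) hrel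
    have huw : ψ u w = 0 := by
      refine ortho d hu.deg hDw ?_
      rw [add_sub_cancel]
      exact one_ne_zero
    have hCsk : Skew ψ (X * Y - Y * X) := by
      intro x y
      simp only [LinearMap.sub_apply, Module.End.mul_apply, map_sub]
      linear_combination hX (Y x) y - hY (X x) y - hY x (X y) + hX x (Y y)
    have hXW := comm_stab d hXT hW
    have hYW := comm_stab d hYT hW
    obtain ⟨Z, hZ, hZ1, hZ2⟩ := blockA d hW hirr hWW huW hu.ne hw0 huw hdw hCsk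
      (fun x hx => W.sub_mem (hXW _ (hYW _ hx)) (hYW _ (hXW _ hx)))
    exact ⟨W, hWB, hW, hirr.1, hWW, Z, hZ, hZ1, hZ2⟩
  · -- isotropic
    have hiso : W ≤ ψ.orthogonal W := inf_eq_left.1 h0
    obtain ⟨N, hN, hc⟩ := d.ss _ (hM.inf hB)
    obtain ⟨W', hW'def⟩ : ∃ W', W' = N ⊓ B := ⟨_, rfl⟩
    have hW' : Stab g W' := by rw [hW'def]; exact hN.inf hB
    have hW'B : W' ≤ B := by rw [hW'def]; exact inf_le_right
    have hdis : ∀ x ∈ W', x ∈ ψ.orthogonal W → x = 0 := by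
      intro x h1 h2
      rw [hW'def] at h1
      have h3 : x ∈ (ψ.orthogonal W ⊓ B) ⊓ N := ⟨⟨h2, h1.2⟩, h1.1⟩
      rw [hc.inf_eq_bot] at h3
      exact (Submodule.mem_bot K).1 h3
    have hsup : ψ.orthogonal W ⊔ W' = ⊤ := by
      have h1 : (ψ.orthogonal W ⊓ B) ⊔ W' = B := by
        rw [hW'def, ← sup_inf_assoc_of_le N (inf_le_right : ψ.orthogonal W ⊓ B ≤ B),
          hc.sup_eq_top, top_inf_eq]
      rw [eq_top_iff, ← sup_perp d hBB]
      refine sup_le ?_ (le_sup_of_le_left (LinearMap.BilinForm.orthogonal_le hWB))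
      rw [← h1]
      exact sup_le_sup_right inf_le_left _
    have hx : ∃ x ∈ W', ψ u x ≠ 0 := by
      obtain ⟨y, hy⟩ := exists_ne_of_nd d.nd hu.ne
      have : y ∈ ψ.orthogonal W ⊔ W' := by rw [hsup]; trivial
      obtain ⟨a, ha, b, hb, rfl⟩ := Submodule.mem_sup.1 this
      refine ⟨b, hb, fun h => hy ?_⟩
      rw [map_add, h, add_zero, neg d, (mem_perp d).1 ha u huW, neg_zero]
    obtain ⟨w, hw, w₂, hw₂, hw0, hind, h1, h2, hd1, hd2⟩ :=
      two d hB hBB H hi hu (hWB huW) hrel hW' hW'B hx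
    obtain ⟨Z, hZ, hZ1, hZ2⟩ := blockB d hW hW' hirr hiso hdis huW hu.ne hw hw₂ hw0 hind h1 h2 hd1
      hd2 hX hY (comm_stab d hXT hW) (comm_stab d hYT hW) (comm_stab d hXT hW')
      (comm_stab d hYT hW')
    refine ⟨W ⊔ W', sup_le hWB hW'B, hW.sup hW', ?_, ?_, Z, hZ, hZ1, hZ2⟩
    · intro h
      apply hirr.1
      rw [eq_bot_iff, ← h]
      exact le_sup_left
    · intro x hx1 hx2
      obtain ⟨a, ha, b, hb, rfl⟩ := Submodule.mem_sup.1 hx1
      rw [mem_perp d] at hx2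
      have hb0 : b = 0 := by
        refine hdis b hb ((mem_perp d).2 fun y hy => ?_)
        have h3 := hx2 y (Submodule.mem_sup_left hy)
        rw [map_add, LinearMap.add_apply, (mem_perp d).1 (hiso ha) y hy, zero_add] at h3
        exact h3
      rw [hb0, add_zero] at hx2 ⊢
      apply nd_eq d
      intro y
      have : y ∈ ψ.orthogonal W ⊔ W' := by rw [hsup]; trivial
      obtain ⟨p, hp, q, hq, rfl⟩ := Submodule.mem_sup.1 this
      rw [map_add, hx2 q (Submodule.mem_sup_right hq), neg d, (mem_perp d).1 hp a ha]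
      simp

/-- induction over the blocks -/
theorem good [CharZero K] [IsAlgClosed K] (d : Dat ψ g D γ c) {X Y : Module.End K V}
    (hX : Skew ψ X) (hY : Skew ψ Y)
    (hXT : ∀ T : Module.End K V, (∀ Y ∈ g, T * Y = Y * T) → X * T = T * X)
    (hYT : ∀ T : Module.End K V, (∀ Y ∈ g, T * Y = Y * T) → Y * T = T * Y) :
    ∀ n : ℕ, ∀ B : Submodule K V, Stab g B → (∀ x ∈ B, x ∈ ψ.orthogonal B → x = 0) →
      Hyp g D γ B → Module.finrank K B ≤ n →
      ∃ Z ∈ g, (∀ x ∈ B, Z x = (X * Y - Y * X) x) ∧ ∀ x ∈ ψ.orthogonal B, Z x = 0 := by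
  intro n
  induction n with
  | zero =>
    intro B _ _ _ hn
    have hB0 : B = ⊥ := Submodule.finrank_eq_zero.1 (Nat.le_zero.1 hn)
    refine ⟨0, g.zero_mem, fun x hx => ?_, fun x _ => rfl⟩
    rw [hB0, Submodule.mem_bot] at hx
    rw [hx, map_zero, map_zero]
  | succ n ih =>
    intro B hB hBB H hn
    by_cases hB0 : B = ⊥
    · refine ⟨0, g.zero_mem, fun x hx => ?_, fun x _ => rfl⟩
      rw [hB0, Submodule.mem_bot] at hx
      rw [hx, map_zero, map_zero]
    obtain ⟨B₁, hB1B, hB1, hB10, hB11, Z₁, hZ1, hZ1a, hZ1b⟩ := block d hX hY hXT hYT hB hBB H hB0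
    obtain ⟨B₂, hB2⟩ : ∃ B₂, B₂ = B ⊓ ψ.orthogonal B₁ := ⟨_, rfl⟩
    have hle : B₂ ≤ B := by rw [hB2]; exact inf_le_left
    have hle' : B₂ ≤ ψ.orthogonal B₁ := by rw [hB2]; exact inf_le_right
    have hlt : B₂ < B := by
      refine lt_of_le_of_ne hle fun h => hB10 ?_
      rw [eq_bot_iff]
      intro x hx
      rw [Submodule.mem_bot]
      refine hB11 x hx (hle' ?_)
      rw [h]
      exact hB1B hx
    have hfr := Submodule.finrank_lt_finrank_of_lt hlt
    have hdec : ∀ x ∈ B, ∃ a ∈ B₁, ∃ b ∈ B₂, x = a + b := by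
      intro x hx
      have : x ∈ B₁ ⊔ ψ.orthogonal B₁ := by rw [sup_perp d hB11]; trivial
      obtain ⟨a, ha, b, hb, rfl⟩ := Submodule.mem_sup.1 this
      refine ⟨a, ha, b, ?_, rfl⟩
      rw [hB2]
      refine ⟨?_, hb⟩
      have := B.sub_mem hx (hB1B ha)
      rwa [add_sub_cancel_left] at this
    have hB2st : Stab g B₂ := by
      rw [hB2]
      exact hB.inf (stab_perp d hB1)
    have hB22 : ∀ x ∈ B₂, x ∈ ψ.orthogonal B₂ → x = 0 := by
      intro x hx hx'
      refine hBB x (hle hx) ((mem_perp d).2 fun y hy => ?_)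
      obtain ⟨a, ha, b, hb, rfl⟩ := hdec y hy
      rw [map_add, (mem_perp d).1 (hle' hx) a ha, (mem_perp d).1 hx' b hb, add_zero]
    obtain ⟨Z₂, hZ2, hZ2a, hZ2b⟩ := ih B₂ hB2st hB22 (fun W hW => H W (hW.trans hle)) (by omega)
    refine ⟨Z₁ + Z₂, g.add_mem hZ1 hZ2, fun x hx => ?_, fun x hx => ?_⟩
    · obtain ⟨a, ha, b, hb, rfl⟩ := hdec x hx
      have h1 : Z₂ a = 0 := by
        refine hZ2b a ((mem_perp d).2 fun y hy => ?_)
        rw [neg d, (mem_perp d).1 (hle' hy) a ha, neg_zero]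
      rw [LinearMap.add_apply, map_add, map_add, map_add, h1, hZ1a a ha, hZ2a b hb,
        hZ1b b (hle' hb), add_zero, zero_add]
    · rw [LinearMap.add_apply, hZ1b x (LinearMap.BilinForm.orthogonal_le hB1B hx),
        hZ2b x (LinearMap.BilinForm.orthogonal_le hle hx), add_zero]

/-- **Main theorem**, with the standing data. -/
theorem main [CharZero K] [IsAlgClosed K] (d : Dat ψ g D γ c) {B : Submodule K V} (hB : Stab g B)
    (hBB : ∀ x ∈ B, x ∈ ψ.orthogonal B → x = 0) (H : Hyp g D γ B) {X Y : Module.End K V}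
    (hX : Skew ψ X) (hY : Skew ψ Y) (hX0 : ∀ x ∈ ψ.orthogonal B, X x = 0)
    (hY0 : ∀ x ∈ ψ.orthogonal B, Y x = 0)
    (hXT : ∀ T : Module.End K V, (∀ Y ∈ g, T * Y = Y * T) → X * T = T * X)
    (hYT : ∀ T : Module.End K V, (∀ Y ∈ g, T * Y = Y * T) → Y * T = T * Y) :
    X * Y - Y * X ∈ g := by
  obtain ⟨Z, hZ, hZ1, hZ2⟩ := good d hX hY hXT hYT _ B hB hBB H le_rfl
  have e : X * Y - Y * X = Z := by
    ext x
    have hx : x ∈ B ⊔ ψ.orthogonal B := by rw [sup_perp d hBB]; trivial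
    obtain ⟨a, ha, b, hb, rfl⟩ := Submodule.mem_sup.1 hx
    rw [map_add, map_add, hZ1 a ha, hZ2 b hb, LinearMap.sub_apply (X * Y) (Y * X) b,
      Module.End.mul_apply, Module.End.mul_apply, hX0 b hb, hY0 b hb, map_zero, map_zero, sub_zero]
  rw [e]
  exact hZ

end Pool.Agent.Helper29.MX
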